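import Pool.Agent.Fo65.Fdefs

/-!
MP_50671f, forced form: the Baire property of the space of families of reals, the truth lemma,
countable supports of Borel names.
-/

namespace Pool.Agent.Fo65

open MeasureTheory Set Cardinal TopologicalSpace Filter Pool.Agent.Nm65

variable {I : Type}

lemma cyl_mono {F G : Finset (I × ℕ)} {x x1 : Coh I} (h : F ⊆ G) (hx : x1 ∈ cyl F x) :
    cyl G x1 ⊆ cyl F x := fun _ hy p hp => (hy p (h hp)).trans (hx p hp)

lemma mem_cyl_self (F : Finset (I × ℕ)) (x : Coh I) : x ∈ cyl F x := fun _ _ => rfl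

lemma isOpen_cyl (F : Finset (I × ℕ)) (x : Coh I) : IsOpen (cyl F x) := by
  have : cyl F x = ⋂ p ∈ F, {y : Coh I | y p.1 p.2 = x p.1 p.2} := by
    ext y; simp [cyl]
  rw [this]
  refine isOpen_biInter_finset fun p _ => ?_
  have hc : Continuous fun y : Coh I => y p.1 p.2 := (continuous_apply p.2).comp (continuous_apply p.1)
  exact (isOpen_discrete {x p.1 p.2}).preimage hc

/-- Basic neighbourhoods. -/
lemma exists_cyl {U : Set (Coh I)} (hU : IsOpen U) {x : Coh I} (hx : x ∈ U) :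
    ∃ F, cyl F x ⊆ U := by
  classical
  obtain ⟨S, u, hu, hsub⟩ := isOpen_pi_iff.1 hU x hx
  have h1 : ∀ a : I, ∃ T : Finset ℕ, a ∈ S → ∀ z : ℕ → ℕ, (∀ n ∈ T, z n = x a n) → z ∈ u a := by
    intro a
    by_cases ha : a ∈ S
    · obtain ⟨T, v, hv, hsub'⟩ := isOpen_pi_iff.1 (hu a ha).1 (x a) (hu a ha).2
      refine ⟨T, fun _ z hz => hsub' ?_⟩
      intro n hn
      rw [hz n hn]
      exact (hv n hn).2
    · exact ⟨∅, fun h => absurd h ha⟩
  choose T hT using h1
  refine ⟨S.biUnion fun a => (T a).image fun n => (a, n), fun y hy => hsub ?_⟩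
  intro a ha
  refine hT a ha (y a) fun n hn => ?_
  exact hy (a, n) (Finset.mem_biUnion.2 ⟨a, ha, Finset.mem_image.2 ⟨n, hn, rfl⟩⟩)

/-- The Baire category theorem. -/
theorem residual_meets {s : Set (Coh I)} (hs : s ∈ residual (Coh I)) (F : Finset (I × ℕ))
    (x : Coh I) : ∃ y ∈ cyl F x, y ∈ s := by
  classical
  obtain ⟨S, hS1, hS2, hS3, hS4⟩ := mem_residual_iff.1 hs
  obtain ⟨f, hf⟩ := Set.countable_iff_exists_subset_range.1 hS3
  have step : ∀ (n : ℕ) (q : Finset (I × ℕ) × Coh I), ∃ q' : Finset (I × ℕ) × Coh I,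
      q.1 ⊆ q'.1 ∧ q'.2 ∈ cyl q.1 q.2 ∧ (f n ∈ S → cyl q'.1 q'.2 ⊆ f n) := by
    intro n q
    by_cases hn : f n ∈ S
    · obtain ⟨z, hz1, hz2⟩ := (hS2 _ hn).inter_open_nonempty (cyl q.1 q.2) (isOpen_cyl _ _)
        ⟨q.2, mem_cyl_self _ _⟩
      obtain ⟨G, hG⟩ := exists_cyl (hS1 _ hn) hz2
      refine ⟨(q.1 ∪ G, z), Finset.subset_union_left, hz1, fun _ => ?_⟩
      exact (cyl_mono Finset.subset_union_right (mem_cyl_self _ _)).trans hG
    · exact ⟨q, Finset.Subset.refl _, mem_cyl_self _ _, fun h => absurd h hn⟩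
  choose nx h1 h2 h3 using step
  set q : ℕ → Finset (I × ℕ) × Coh I := fun n => Nat.rec (F, x) (fun k p => nx k p) n with hq
  have hq0 : q 0 = (F, x) := rfl
  have hqs : ∀ n, q (n + 1) = nx n (q n) := fun n => rfl
  have hF : ∀ n m, n ≤ m → (q n).1 ⊆ (q m).1 ∧ (q m).2 ∈ cyl (q n).1 (q n).2 := by
    intro n m hnm
    induction m, hnm using Nat.le_induction with
    | base => exact ⟨Finset.Subset.refl _, mem_cyl_self _ _⟩
    | succ m _ ih =>
      rw [hqs m]
      refine ⟨ih.1.trans (h1 m (q m)), ?_⟩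
      exact cyl_mono ih.1 ih.2 (h2 m (q m))
  have hyex : ∃ y : Coh I, ∀ n, y ∈ cyl (q n).1 (q n).2 := by
    refine ⟨fun i k => if h : ∃ n, (i, k) ∈ (q n).1 then (q (Nat.find h)).2 i k else 0, ?_⟩
    rintro n ⟨i, k⟩ hp
    have hex : ∃ n, (i, k) ∈ (q n).1 := ⟨n, hp⟩
    simp only [hex, dif_pos]
    exact ((hF _ n (Nat.find_min' hex hp)).2 (i, k) (Nat.find_spec hex)).symm
  obtain ⟨y, hy⟩ := hyex
  refine ⟨y, by have := hy 0; rwa [hq0] at this, hS4 ?_⟩
  intro t ht
  obtain ⟨n, rfl⟩ := hf ht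
  refine h3 n (q n) ht ?_
  have := hy (n + 1)
  rwa [hqs] at this

lemma Fc.mono {F G : Finset (I × ℕ)} {x x1 : Coh I} {φ : Coh I → Prop} (h : Fc F x φ)
    (hFG : F ⊆ G) (hx : x1 ∈ cyl F x) : Fc G x1 φ := by
  filter_upwards [h] with y hy hy'
  exact hy (cyl_mono hFG hx hy')

lemma Fc.and {F : Finset (I × ℕ)} {x : Coh I} {φ ψ : Coh I → Prop} (h : Fc F x φ)
    (h' : Fc F x ψ) : Fc F x fun y => φ y ∧ ψ y := by
  filter_upwards [h, h'] with y hy hy' hc
  exact ⟨hy hc, hy' hc⟩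

lemma Fc.imp {F : Finset (I × ℕ)} {x : Coh I} {φ ψ : Coh I → Prop} (h : Fc F x φ)
    (h' : ∀ y ∈ cyl F x, φ y → ψ y) : Fc F x ψ := by
  filter_upwards [h] with y hy hc
  exact h' y hc (hy hc)

lemma Frc.fc {φ : Coh I → Prop} (h : Frc φ) (F : Finset (I × ℕ)) (x : Coh I) : Fc F x φ := by
  have h' : ∀ᶠ x in residual (Coh I), φ x := h
  filter_upwards [h'] with y hy _
  exact hy

/-- A generic point of a condition. -/
lemma Fc.exists {F : Finset (I × ℕ)} {x : Coh I} {φ ψ : Coh I → Prop} (h : Fc F x φ)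
    (h' : Frc ψ) : ∃ y ∈ cyl F x, φ y ∧ ψ y := by
  have h1 : ∀ᶠ y in residual (Coh I), (y ∈ cyl F x → φ y) ∧ ψ y := Filter.Eventually.and h h'
  obtain ⟨y, hy1, hy2⟩ := residual_meets h1 F x
  exact ⟨y, hy1, hy2.1 hy1, hy2.2⟩

lemma Frc.exists {φ : Coh I → Prop} (h : Frc φ) (F : Finset (I × ℕ)) (x : Coh I) :
    ∃ y ∈ cyl F x, φ y := residual_meets h F x

lemma isOpen_Fc (φ : Coh I → Prop) : IsOpen {x | ∃ F, Fc F x φ} := by
  rw [isOpen_iff_mem_nhds]
  rintro x ⟨F, hF⟩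
  refine mem_of_superset ((isOpen_cyl F x).mem_nhds (mem_cyl_self F x)) ?_
  intro y hy
  exact ⟨F, hF.mono (Finset.Subset.refl _) hy⟩

lemma isOpenMap_restr (C : Set I) : IsOpenMap fun (x : Coh I) (i : C) => x i.1 := by
  classical
  have h := (Homeomorph.piEquivPiSubtypeProd (fun i => i ∈ C) (fun _ : I => ℕ → ℕ)).isOpenMap
  exact isOpenMap_fst.comp h

/-- The truth lemma, with supports. -/
theorem truth {φ : Coh I → Prop} (hm : MeasurableSet {x | φ x}) {C : Set I} (hC : DependsOn φ C) :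
    Frc fun x => φ x → ∃ F : Finset (I × ℕ), (∀ p ∈ F, p.1 ∈ C) ∧ Fc F x φ := by
  classical
  set E : (C → ℕ → ℕ) → Coh I := fun x' i => if h : i ∈ C then x' ⟨i, h⟩ else fun _ => 0 with hE
  set P : Coh I → (C → ℕ → ℕ) := fun x i => x i.1 with hP
  have hEm : Measurable E := by
    rw [measurable_pi_iff]
    intro i
    by_cases h : i ∈ C
    · have : (fun x' => E x' i) = fun x' : C → ℕ → ℕ => x' ⟨i, h⟩ := by
        funext x'; simp [hE, h]
      rw [this]
      exact measurable_pi_apply _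
    · have : (fun x' => E x' i) = fun _ : C → ℕ → ℕ => (fun _ => 0 : ℕ → ℕ) := by
        funext x'; simp [hE, h]
      rw [this]
      exact measurable_const
  have hEP : ∀ x, φ (E (P x)) ↔ φ x := by
    intro x
    have : φ (E (P x)) = φ x := hC (by intro i hi; simp [hE, hP, hi])
    rw [this]
  have hs' : MeasurableSet (E ⁻¹' {x | φ x}) := hEm hm
  have hB : BaireMeasurableSet (E ⁻¹' {x | φ x}) := by
    have h1 : @MeasurableSet _ (borel (C → ℕ → ℕ)) (E ⁻¹' {x | φ x}) := pi_le_borel_pi _ hs'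
    exact ⟨_, h1, Filter.EventuallyEq.rfl⟩
  obtain ⟨u, hu, hsu⟩ := hB.residualEq_isOpen
  have hPc : Continuous P := continuous_pi fun i => continuous_apply i.1
  have hPo : IsOpenMap P := isOpenMap_restr C
  have h2 : ∀ᶠ x in residual (Coh I), (P x ∈ E ⁻¹' {x | φ x}) = (P x ∈ u) :=
    (tendsto_residual_of_isOpenMap hPc hPo).eventually hsu
  have h3 : ∀ᶠ x in residual (Coh I), φ x ↔ P x ∈ u := by
    filter_upwards [h2] with x hx
    rw [← hx]
    exact (hEP x).symm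
  have h3' : ∀ᶠ x in residual (Coh I), P x ∈ u → φ x := h3.mono fun x hx => hx.2
  filter_upwards [h3] with x hx hφ
  obtain ⟨F', hF'⟩ := exists_cyl (I := C) hu (hx.1 hφ)
  refine ⟨F'.image fun p => (p.1.1, p.2), ?_, ?_⟩
  · intro p hp
    obtain ⟨p', _, rfl⟩ := Finset.mem_image.1 hp
    exact p'.1.2
  · filter_upwards [h3'] with y hy hyc
    refine hy (hF' fun p hp => ?_)
    exact hyc (p.1.1, p.2) (Finset.mem_image.2 ⟨p, hp, rfl⟩)

theorem truth' {φ : Coh I → Prop} (hm : MeasurableSet {x | φ x}) :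
    Frc fun x => φ x → ∃ F : Finset (I × ℕ), Fc F x φ := by
  have h : ∀ᶠ x in residual (Coh I), φ x → ∃ F : Finset (I × ℕ), (∀ p ∈ F, p.1 ∈ (univ : Set I)) ∧
    Fc F x φ := truth hm (C := univ) (fun x y hxy => by
      have : x = y := funext fun i => hxy i (mem_univ i)
      rw [this])
  filter_upwards [h] with x hx hφ
  obtain ⟨F, _, hF⟩ := hx hφ
  exact ⟨F, hF⟩

/-- Density: if each condition has an extension forcing φ then φ is forced. -/
theorem frc_of_dense {φ : Coh I → Prop} (hm : MeasurableSet {x | φ x})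
    (h : ∀ F x, ∃ G x1, F ⊆ G ∧ x1 ∈ cyl F x ∧ Fc G x1 φ) : Frc φ := by
  classical
  have hd : Dense {x | ∃ F, Fc F x φ} := by
    rw [dense_iff_inter_open]
    rintro U hU ⟨x, hx⟩
    obtain ⟨F, hF⟩ := exists_cyl hU hx
    obtain ⟨G, x1, _, hx1, hG⟩ := h F x
    exact ⟨x1, hF hx1, G, hG⟩
  have h1 : ∀ᶠ x in residual (Coh I), ∃ F, Fc F x φ :=
    residual_of_dense_open (isOpen_Fc φ) hd
  have hmn : MeasurableSet {x : Coh I | ¬ φ x} := hm.compl
  have h2 : ∀ᶠ x in residual (Coh I), ¬ φ x → ∃ F : Finset (I × ℕ), Fc F x fun y => ¬ φ y :=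
    truth' hmn
  have h3 : ∀ᶠ x in residual (Coh I), φ x := by
    filter_upwards [h1, h2] with x hx1 hx2
    by_contra hcon
    obtain ⟨F, hF⟩ := hx1
    obtain ⟨G, hG⟩ := hx2 hcon
    have a1 : Fc (F ∪ G) x φ := hF.mono Finset.subset_union_left (mem_cyl_self _ _)
    have a2 : Fc (F ∪ G) x fun y => ¬ φ y := hG.mono Finset.subset_union_right (mem_cyl_self _ _)
    have a3 : ∀ᶠ y in residual (Coh I), y ∈ cyl (F ∪ G) x → φ y ∧ ¬ φ y := a1.and a2
    obtain ⟨y, hy1, hy2⟩ := residual_meets a3 (F ∪ G) x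
    exact (hy2 hy1).2 (hy2 hy1).1
  exact h3

/-- A measurable set depends on countably many coordinates. -/
theorem support_set {s : Set (Coh I)} (hs : MeasurableSet s) :
    ∃ C : Set I, C.Countable ∧ DependsOn (fun x => x ∈ s) C := by
  let m : MeasurableSpace (Coh I) :=
    { MeasurableSet' := fun s => ∃ C : Set I, C.Countable ∧ DependsOn (fun x => x ∈ s) C
      measurableSet_empty := ⟨∅, countable_empty, fun _ _ _ => rfl⟩
      measurableSet_compl := by
        rintro s ⟨C, hC, hd⟩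
        refine ⟨C, hC, fun x y hxy => ?_⟩
        have h1 : (x ∈ s) = (y ∈ s) := hd hxy
        show (x ∈ sᶜ) = (y ∈ sᶜ)
        rw [mem_compl_iff, mem_compl_iff, h1]
      measurableSet_iUnion := by
        intro f hf
        choose C hC hd using hf
        refine ⟨⋃ n, C n, countable_iUnion hC, fun x y hxy => ?_⟩
        show (x ∈ ⋃ n, f n) = (y ∈ ⋃ n, f n)
        rw [mem_iUnion, mem_iUnion]
        have h1 : ∀ n, (x ∈ f n) = (y ∈ f n) := fun n =>
          hd n (fun i hi => hxy i (mem_iUnion.2 ⟨n, hi⟩))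
        simp only [h1] }
  have hle : (MeasurableSpace.pi : MeasurableSpace (Coh I)) ≤ m := by
    refine iSup_le fun i => ?_
    rintro t ⟨t', _, rfl⟩
    refine ⟨{i}, countable_singleton i, fun x y hxy => ?_⟩
    have h1 : x i = y i := hxy i rfl
    show (x i ∈ t') = (y i ∈ t')
    rw [h1]
  exact hle s hs

/-- Names have countable supports. -/
theorem support_fun {ι β : Type} [Countable ι] [Countable β] {f : Coh I → ι → β}
    (hf : ∀ n b, MeasurableSet {x | f x n = b}) :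
    ∃ C : Set I, C.Countable ∧ DependsOn f C := by
  choose C hC hd using fun (q : ι × β) => support_set (hf q.1 q.2)
  refine ⟨⋃ q, C q, countable_iUnion hC, fun x y hxy => ?_⟩
  funext n
  have h1 : (f x n = f x n) = (f y n = f x n) :=
    hd (n, f x n) (fun i hi => hxy i (mem_iUnion.2 ⟨(n, f x n), hi⟩))
  exact (h1.mp rfl).symm

end Pool.Agent.Fo65
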