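import Pool.Agent.Fo65.Base

/-!
MP_50671f, forced form, row F4: the key property `SS` of names of base sets, and base sets are
forced to be infinite.
-/

namespace Pool.Agent.Fo65

open MeasureTheory Set Cardinal TopologicalSpace Filter Pool.Agent.Nm65

variable {Z K : Type} [LinearOrder K]

namespace SSx

lemma Lv_mono {j i : K} (h : j ≤ i) : Lv Z j ⊆ Lv Z i := fun _ hp k hk => (hp k hk).trans_le h

lemma inl_mem_Lv (z : Z) (i : K) : (Sum.inl z : Z ⊕ K) ∈ Lv Z i := fun k hk => by simp at hk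

lemma inr_mem_Lv {j i : K} (h : j < i) : (Sum.inr j : Z ⊕ K) ∈ Lv Z i := fun k hk => by
  rw [Sum.inr.injEq] at hk
  exact hk ▸ h

lemma inr_notMem_Lv (j : K) : (Sum.inr j : Z ⊕ K) ∉ Lv Z j := fun h => lt_irrefl j (h j rfl)

lemma meas {i : K} {a : Coh (Z ⊕ K) → R} (h : BsN i a) : Measurable a := by
  induction h with
  | one i => exact measurable_const
  | step _ _ hh hc _ _ _ _ ih => exact mb_opB (measurable_pi_apply _) hh hc ih

lemma dep {i : K} {a : Coh (Z ⊕ K) → R} (h : BsN i a) : DependsOn a (Lv Z i) := by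
  induction h with
  | one i => exact fun _ _ _ => rfl
  | @step j i a h c hji _ _ _ hhd hcd _ _ ih =>
    intro x y hxy
    have h1 : x (Sum.inr j) = y (Sum.inr j) := hxy _ (inr_mem_Lv hji)
    have h2 : ∀ p ∈ Lv Z j, x p = y p := fun p hp => hxy p (Lv_mono hji.le hp)
    show opB (x (Sum.inr j)) (h x) (c x) (a x) = opB (y (Sum.inr j)) (h y) (c y) (a y)
    rw [h1, hhd h2, hcd h2, ih h2]

open Classical in
/-- base sets with the property SS are forced to be infinite -/
lemma inf_of_SS (ζ : Z) {i : K} {a : Coh (Z ⊕ K) → R} (hm : Measurable a) (hS : SS ζ i a) :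
    Frc fun x => (St (a x)).Infinite := by
  have h1 : ∀ N : ℕ, Frc fun x => ∃ l, N ≤ l ∧ l ∈ St (a x) := by
    intro N
    apply frc_of_dense
    · exact (Measurable.exists fun l => measurable_const.and (mb_p1 (fun v => v ≠ 0) (mb_ev' hm l))).setOf
    · intro F x
      obtain ⟨l, hl, G, x1, hFG, hx1, _, hu⟩ := hS F x N
      obtain ⟨e, H, _, heF, _, _, hfc⟩ := hu 0 (by positivity)
      refine ⟨G ∪ H, _, hFG.trans Finset.subset_union_left, ?_, hfc.imp fun y _ hy => ⟨l, hl, hy⟩⟩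
      intro p hp
      by_cases hz : p.1 = Sum.inl ζ
      · rw [hz, Function.update_self]
        apply heF
        rw [← hz]
        exact hp
      · rw [Function.update_of_ne hz]
        exact hx1 p hp
  have h2 : ∀ᶠ x in residual (Coh (Z ⊕ K)), ∀ N : ℕ, ∃ l, N ≤ l ∧ l ∈ St (a x) := by
    rw [eventually_countable_forall]
    exact h1
  show ∀ᶠ x in residual (Coh (Z ⊕ K)), (St (a x)).Infinite
  filter_upwards [h2] with x hx
  apply Set.infinite_of_forall_exists_gt
  intro N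
  obtain ⟨l, hl, hl2⟩ := hx (N + 1)
  exact ⟨l, hl2, hl⟩

/-- loop -/
lemma loop {C : Type} (le : C → C → Prop) (hr : ∀ q, le q q) (ht : ∀ q1 q2 q3, le q1 q2 → le q2 q3 → le q1 q3)
    (Ψ : ℕ → C → Prop) (hp : ∀ u q q', le q' q → Ψ u q → Ψ u q') (q3 : C) (n : ℕ)
    (hd : ∀ u, u < n → ∀ q, le q q3 → ∃ q', le q' q ∧ Ψ u q') : ∃ q, le q q3 ∧ ∀ u, u < n → Ψ u q := by
  induction n with
  | zero => exact ⟨q3, hr q3, fun u hu => absurd hu (Nat.not_lt_zero u)⟩
  | succ n ih =>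
    obtain ⟨q, hq, hΨ⟩ := ih fun u hu => hd u (hu.trans (Nat.lt_succ_self n))
    obtain ⟨q', hq', hn⟩ := hd n (Nat.lt_succ_self n) q hq
    refine ⟨q', ht _ _ _ hq' hq, fun u hu => ?_⟩
    rcases Nat.lt_succ_iff_lt_or_eq.1 hu with h | h
    · exact hp u q q' hq' (hΨ u h)
    · rw [h]
      exact hn

/-- a code of a clopen set containing finitely many coded clopen sets of small measure -/
lemma exists_code (n t0 l : ℕ) (hn : n ≤ 2 ^ l) (k : ℕ → ℕ)
    (hk : ∀ u, u < n → mu (cl (k u) : Set Cantor) ≤ (1 / 2) ^ (t0 + l)) :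
    ∃ v, mu (cl v : Set Cantor) ≤ (1 / 2) ^ t0 ∧ ∀ u, u < n → (cl (k u) : Set Cantor) ⊆ cl v := by
  have h : ∀ m, m ≤ n → ∃ v, mu (cl v : Set Cantor) ≤ m * (1 / 2) ^ (t0 + l) ∧
      ∀ u, u < m → (cl (k u) : Set Cantor) ⊆ cl v := by
    intro m
    induction m with
    | zero =>
      intro _
      obtain ⟨v, hv⟩ := cl_surj ⊥
      exact ⟨v, by rw [hv]; simp, fun u hu => absurd hu (Nat.not_lt_zero u)⟩
    | succ m ih =>
      intro hm
      obtain ⟨v, hv1, hv2⟩ := ih (by omega)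
      obtain ⟨v', hv'⟩ := cl_surj (cl v ⊔ cl (k m))
      refine ⟨v', ?_, fun u hu => ?_⟩
      · rw [hv']
        show mu ((cl v : Set Cantor) ∪ (cl (k m) : Set Cantor)) ≤ _
        refine (measure_union_le _ _).trans ?_
        rw [Nat.cast_add, Nat.cast_one, add_mul, one_mul]
        exact add_le_add hv1 (hk m (by omega))
      · rw [hv']
        show _ ⊆ ((cl v : Set Cantor) ∪ (cl (k m) : Set Cantor))
        rcases Nat.lt_succ_iff_lt_or_eq.1 hu with h | h
        · exact (hv2 u h).trans subset_union_left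
        · rw [h]
          exact subset_union_right
  obtain ⟨v, hv1, hv2⟩ := h n le_rfl
  refine ⟨v, hv1.trans ?_, hv2⟩
  calc (n : ENNReal) * (1 / 2) ^ (t0 + l) ≤ (2 ^ l : ENNReal) * (1 / 2) ^ (t0 + l) := by
        gcongr
        exact_mod_cast hn
    _ = (1 / 2) ^ t0 := by
        rw [pow_add, mul_comm, mul_assoc, ← mul_pow, one_div, ENNReal.inv_mul_cancel (by simp) (by simp),
          one_pow, mul_one]

open Classical in
/-- Decide a further point of `a` and the values of `h`, `c` needed at it, below a common condition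
and a condition on the coordinate `ζ`. -/
lemma dens (ζ : Z) {j : K} {a h c : Coh (Z ⊕ K) → R} (ham : Measurable a) (had : DependsOn a (Lv Z j))
    (hh : Measurable h) (hc : Measurable c) (hhd : DependsOn h (Lv Z j)) (hcd : DependsOn c (Lv Z j))
    (hinf : Frc fun x => (St (a x)).Infinite) (hnull : Frc fun x => Null (c x)) (w l t : ℕ)
    (G : Finset ((Z ⊕ K) × ℕ)) (x1 : Coh (Z ⊕ K)) (e : R) (H : Finset ((Z ⊕ K) × ℕ))
    (hH : ∀ p ∈ H, p.1 = Sum.inl ζ) (heG : ∀ n, (Sum.inl ζ, n) ∈ G → e n = x1 (Sum.inl ζ) n)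
    (hfc : Fc (G ∪ H) (Function.update x1 (Sum.inl ζ) e) fun y => l ∈ St (a y)) :
    ∃ (G' : Finset ((Z ⊕ K) × ℕ)) (x1' : Coh (Z ⊕ K)) (e' : R) (H' : Finset ((Z ⊕ K) × ℕ)) (n' b k : ℕ),
      G ⊆ G' ∧ x1' ∈ cyl G x1 ∧ (∀ p ∈ G', p ∉ G → p.1 ∈ Lv Z j ∧ p.1 ≠ Sum.inl ζ) ∧ H ⊆ H' ∧
      (∀ p ∈ H', p.1 = Sum.inl ζ) ∧ (∀ n, (Sum.inl ζ, n) ∈ G ∪ H → e' n = e n) ∧ w < n' ∧
      mu (cl k : Set Cantor) ≤ (1 / 2) ^ t ∧
      Fc (G' ∪ H') (Function.update x1' (Sum.inl ζ) e') fun y =>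
        l ∈ St (a y) ∧ n' ∈ St (a y) ∧ h y l ≤ b ∧ h y n' ≤ b ∧ c y n' = k := by
  -- the properties to be decided
  let φ : ℕ → ℕ → ℕ → Coh (Z ⊕ K) → Prop := fun n' b k y =>
    l ∈ St (a y) ∧ n' ∈ St (a y) ∧ h y l ≤ b ∧ h y n' ≤ b ∧ c y n' = k
  have hφm : ∀ n' b k, MeasurableSet {y | φ n' b k y} := by
    intro n' b k
    apply Measurable.setOf
    exact (mb_p1 (fun v => v ≠ 0) (mb_ev' ham l)).and ((mb_p1 (fun v => v ≠ 0) (mb_ev' ham n')).and
      ((mb_p1 (fun v => v ≤ b) (mb_ev' hh l)).and ((mb_p1 (fun v => v ≤ b) (mb_ev' hh n')).and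
        (mb_p1 (fun v => v = k) (mb_ev' hc n')))))
  have hφd : ∀ n' b k, DependsOn (φ n' b k) (Lv Z j) := by
    intro n' b k x y hxy
    show (l ∈ St (a x) ∧ n' ∈ St (a x) ∧ h x l ≤ b ∧ h x n' ≤ b ∧ c x n' = k) =
      (l ∈ St (a y) ∧ n' ∈ St (a y) ∧ h y l ≤ b ∧ h y n' ≤ b ∧ c y n' = k)
    rw [had hxy, hhd hxy, hcd hxy]
  have htr : ∀ᶠ y in residual (Coh (Z ⊕ K)), ∀ n' b k : ℕ, φ n' b k y →
      ∃ F : Finset ((Z ⊕ K) × ℕ), (∀ p ∈ F, p.1 ∈ Lv Z j) ∧ Fc F y (φ n' b k) := by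
    rw [eventually_countable_forall]
    intro n'
    rw [eventually_countable_forall]
    intro b
    rw [eventually_countable_forall]
    intro k
    exact truth (hφm n' b k) (hφd n' b k)
  have hgen : Frc fun y => (St (a y)).Infinite ∧ Null (c y) ∧ ∀ n' b k : ℕ, φ n' b k y →
      ∃ F : Finset ((Z ⊕ K) × ℕ), (∀ p ∈ F, p.1 ∈ Lv Z j) ∧ Fc F y (φ n' b k) := by
    have h1 : ∀ᶠ y in residual (Coh (Z ⊕ K)), (St (a y)).Infinite := hinf
    have h2 : ∀ᶠ y in residual (Coh (Z ⊕ K)), Null (c y) := hnull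
    exact h1.and (h2.and htr)
  obtain ⟨y, hy, hyl, hyinf, hynull, hytr⟩ := hfc.exists hgen
  obtain ⟨m, hm⟩ := hynull t
  obtain ⟨n', hn', hlt⟩ := hyinf.exists_gt (max w m)
  obtain ⟨Q, hQ, hQf⟩ := hytr n' (max (h y l) (h y n')) (c y n')
    ⟨hyl, hn', le_max_left _ _, le_max_right _ _, rfl⟩
  refine ⟨G ∪ Q.filter fun p => p.1 ≠ Sum.inl ζ, y, y (Sum.inl ζ), H ∪ Q.filter fun p => p.1 = Sum.inl ζ,
    n', max (h y l) (h y n'), c y n', Finset.subset_union_left, ?_, ?_, Finset.subset_union_left, ?_, ?_,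
    (le_max_left _ _).trans_lt hlt, hm n' ((le_max_right _ _).trans hlt.le), ?_⟩
  · intro p hp
    have h1 := hy p (Finset.mem_union_left _ hp)
    rw [h1]
    by_cases hz : p.1 = Sum.inl ζ
    · rw [hz, Function.update_self]
      apply heG
      rw [← hz]
      exact hp
    · rw [Function.update_of_ne hz]
  · intro p hp hpG
    rcases Finset.mem_union.1 hp with h1 | h1
    · exact absurd h1 hpG
    · rw [Finset.mem_filter] at h1
      exact ⟨hQ p h1.1, h1.2⟩
  · intro p hp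
    rcases Finset.mem_union.1 hp with h1 | h1
    · exact hH p h1
    · exact (Finset.mem_filter.1 h1).2
  · intro n hn
    have h1 := hy (Sum.inl ζ, n) hn
    simpa using h1
  · apply hQf.mono
    · intro p hp
      by_cases hz : p.1 = Sum.inl ζ
      · exact Finset.mem_union_right _ (Finset.mem_union_right _ (Finset.mem_filter.2 ⟨hp, hz⟩))
      · exact Finset.mem_union_left _ (Finset.mem_union_right _ (Finset.mem_filter.2 ⟨hp, hz⟩))
    · intro p hp
      rw [Function.update_eq_self]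

open Classical in
lemma step (ζ : Z) {i j : K} (hji : j < i) {a h c : Coh (Z ⊕ K) → R} (hB : BsN j a) (hh : Measurable h)
    (hc : Measurable c) (hhd : DependsOn h (Lv Z j)) (hcd : DependsOn c (Lv Z j)) (hnice : ∀ x, Nice (h x))
    (hnull : Frc fun x => Null (c x)) (ih : SS ζ j a) :
    SS ζ i fun x => opB (x (Sum.inr j)) (h x) (c x) (a x) := by
  have ham : Measurable a := meas hB
  have had : DependsOn a (Lv Z j) := dep hB
  have hinf := inf_of_SS ζ ham ih
  intro F x N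
  -- the first undecided block of the coordinate inr j
  obtain ⟨t0, ht0⟩ : ∃ t0, ∀ n, (Sum.inr j, n) ∈ F → n < t0 := by
    refine ⟨(F.sup fun p => p.2) + 1, fun n hn => ?_⟩
    have : n ≤ F.sup fun p => p.2 := Finset.le_sup (f := fun p : (Z ⊕ K) × ℕ => p.2) hn
    omega
  let F1 : Finset ((Z ⊕ K) × ℕ) := F ∪ (Finset.range t0).image fun s => (Sum.inr j, s)
  let a0 : ℕ := st (x (Sum.inr j)) t0
  -- decide h at a0
  have hψm : ∀ v : ℕ, MeasurableSet {y : Coh (Z ⊕ K) | h y a0 = v} := fun v =>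
    (mb_p1 (fun u => u = v) (mb_ev' hh a0)).setOf
  have hψd : ∀ v : ℕ, DependsOn (fun y : Coh (Z ⊕ K) => h y a0 = v) (Lv Z j) := by
    intro v y z hyz
    show (h y a0 = v) = (h z a0 = v)
    rw [hhd hyz]
  have htr : ∀ᶠ y in residual (Coh (Z ⊕ K)), ∀ v : ℕ, h y a0 = v →
      ∃ Q : Finset ((Z ⊕ K) × ℕ), (∀ p ∈ Q, p.1 ∈ Lv Z j) ∧ Fc Q y fun y => h y a0 = v := by
    rw [eventually_countable_forall]
    exact fun v => truth (hψm v) (hψd v)
  obtain ⟨x2, hx2, hx2tr⟩ := Frc.exists htr F1 x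
  obtain ⟨Q, hQ, hQf⟩ := hx2tr _ rfl
  let w : ℕ := h x2 a0
  let F2 : Finset ((Z ⊕ K) × ℕ) := F1 ∪ Q
  -- the induction hypothesis
  obtain ⟨l, hl, G3, x3, hFG3, hx3, hG3, hu3⟩ := ih F2 x2 (max N (w + 1))
  have hwl : w < l := (Nat.lt_succ_self w).trans_le ((le_max_right _ _).trans hl)
  -- common conditions
  let le : Finset ((Z ⊕ K) × ℕ) × Coh (Z ⊕ K) → Finset ((Z ⊕ K) × ℕ) × Coh (Z ⊕ K) → Prop := fun q' q =>
    q.1 ⊆ q'.1 ∧ q'.2 ∈ cyl q.1 q.2 ∧ ∀ p ∈ q'.1, p ∉ q.1 → p.1 ∈ Lv Z j ∧ p.1 ≠ Sum.inl ζ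
  have hler : ∀ q, le q q := fun q => ⟨Finset.Subset.refl _, mem_cyl_self _ _, fun p hp hp' => absurd hp hp'⟩
  have hlet : ∀ q1 q2 q3, le q1 q2 → le q2 q3 → le q1 q3 := by
    intro q1 q2 q3 h12 h23
    refine ⟨h23.1.trans h12.1, cyl_mono h23.1 h23.2.1 h12.2.1, fun p hp hp3 => ?_⟩
    by_cases h2 : p ∈ q2.1
    · exact h23.2.2 p h2 hp3
    · exact h12.2.2 p hp h2
  let φ : ℕ → ℕ → ℕ → Coh (Z ⊕ K) → Prop := fun n' b k y =>
    l ∈ St (a y) ∧ n' ∈ St (a y) ∧ h y l ≤ b ∧ h y n' ≤ b ∧ c y n' = k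
  let Ψ : ℕ → Finset ((Z ⊕ K) × ℕ) × Coh (Z ⊕ K) → Prop := fun u q =>
    ∃ (e : R) (H : Finset ((Z ⊕ K) × ℕ)) (n' b k : ℕ), e l % 2 ^ l = u ∧
      (∀ n, (Sum.inl ζ, n) ∈ F2 → e n = x2 (Sum.inl ζ) n) ∧ (∀ p ∈ H, p.1 = Sum.inl ζ) ∧
      (Sum.inl ζ, l) ∈ H ∧ w < n' ∧ mu (cl k : Set Cantor) ≤ (1 / 2) ^ (t0 + l) ∧
      Fc (q.1 ∪ H) (Function.update q.2 (Sum.inl ζ) e) (φ n' b k)
  -- persistence
  have hupd : ∀ (q q' : Finset ((Z ⊕ K) × ℕ) × Coh (Z ⊕ K)) (e : R) (H : Finset ((Z ⊕ K) × ℕ)),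
      le q' q → (∀ p ∈ H, p.1 = Sum.inl ζ) →
      Function.update q'.2 (Sum.inl ζ) e ∈ cyl (q.1 ∪ H) (Function.update q.2 (Sum.inl ζ) e) := by
    intro q q' e H hq hH p hp
    by_cases hz : p.1 = Sum.inl ζ
    · rw [hz, Function.update_self, Function.update_self]
    · rw [Function.update_of_ne hz, Function.update_of_ne hz]
      rcases Finset.mem_union.1 hp with h1 | h1
      · exact hq.2.1 p h1
      · exact absurd (hH p h1) hz
  have hpers : ∀ u q q', le q' q → Ψ u q → Ψ u q' := by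
    rintro u q q' hq ⟨e, H, n', b, k, h1, h2, h3, h4, h5, h6, h7⟩
    exact ⟨e, H, n', b, k, h1, h2, h3, h4, h5, h6,
      h7.mono (Finset.union_subset_union_left hq.1) (hupd q q' e H hq h3)⟩
  -- density
  have hdense : ∀ u, u < 2 ^ l → ∀ q, le q (G3, x3) → ∃ q', le q' q ∧ Ψ u q' := by
    intro u hu q hq
    obtain ⟨e, H, h1, h2, h3, h4, h5⟩ := hu3 u hu
    have h6 : Fc (q.1 ∪ H) (Function.update q.2 (Sum.inl ζ) e) fun y => l ∈ St (a y) :=
      h5.mono (Finset.union_subset_union_left hq.1) (hupd (G3, x3) q e H hq h3)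
    have hzF2 : ∀ n, (Sum.inl ζ, n) ∈ q.1 → (Sum.inl ζ, n) ∈ F2 := by
      intro n hn
      by_contra hno
      by_cases h3' : (Sum.inl ζ, n) ∈ G3
      · exact (hG3 _ h3' hno).2 rfl
      · exact (hq.2.2 _ hn h3').2 rfl
    have hq2 : ∀ p ∈ F2, q.2 p.1 p.2 = x2 p.1 p.2 := by
      intro p hp
      rw [hq.2.1 p (hFG3 hp)]
      exact hx3 p hp
    obtain ⟨G', x1', e', H', n', b, k, g1, g2, g3, g4, g5, g6, g7, g8, g9⟩ := dens ζ ham had hh hc hhd hcd
      hinf hnull w l (t0 + l) q.1 q.2 e H h3 (fun n hn => by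
        rw [h2 n (hzF2 n hn)]
        exact (hq2 _ (hzF2 n hn)).symm) h6
    refine ⟨(G', x1'), ⟨g1, g2, g3⟩, e', H', n', b, k, ?_, ?_, g5, g4 h4, g7, g8, g9⟩
    · rw [g6 l (Finset.mem_union_right _ h4)]
      exact h1
    · intro n hn
      rw [g6 n (Finset.mem_union_left _ (hq.1 (hFG3 hn)))]
      exact h2 n hn
  obtain ⟨q, hq, hΨ⟩ := loop le hler hlet Ψ hpers (G3, x3) (2 ^ l) hdense
  choose! e H n' b k h1 h2 h3 h4 h5 h6 h7 using hΨ
  -- the new block
  obtain ⟨v0, hv0, hv1⟩ := exists_code (2 ^ l) t0 l le_rfl k h6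
  let B : ℕ := (Finset.range (2 ^ l)).sup b
  have hB' : ∀ u, u < 2 ^ l → b u ≤ B := fun u hu => Finset.le_sup (f := b) (Finset.mem_range.2 hu)
  let v : ℕ := Nat.pair B v0
  let G5 : Finset ((Z ⊕ K) × ℕ) := insert (Sum.inr j, t0) q.1
  let x5 : Coh (Z ⊕ K) := Function.update q.2 (Sum.inr j) (Function.update (q.2 (Sum.inr j)) t0 v)
  have hnotin : ((Sum.inr j, t0) : (Z ⊕ K) × ℕ) ∉ q.1 := by
    intro hin
    by_cases hi3 : ((Sum.inr j, t0) : (Z ⊕ K) × ℕ) ∈ G3
    · by_cases hi2 : ((Sum.inr j, t0) : (Z ⊕ K) × ℕ) ∈ F2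
      · rcases Finset.mem_union.1 hi2 with hi1 | hi1
        · rcases Finset.mem_union.1 hi1 with hi0 | hi0
          · exact lt_irrefl _ (ht0 _ hi0)
          · obtain ⟨s, hs, hse⟩ := Finset.mem_image.1 hi0
            have : s = t0 := by simpa using hse
            rw [this] at hs
            exact absurd (Finset.mem_range.1 hs) (lt_irrefl _)
        · exact inr_notMem_Lv j (hQ _ hi1)
      · exact inr_notMem_Lv j (hG3 _ hi3 hi2).1
    · exact inr_notMem_Lv j (hq.2.2 _ hin hi3).1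
  have hx5 : ∀ p ∈ q.1, x5 p.1 p.2 = q.2 p.1 p.2 := by
    intro p hp
    by_cases hj : p.1 = Sum.inr j
    · have hne : p.2 ≠ t0 := by
        intro h0
        apply hnotin
        rw [← hj, ← h0]
        exact hp
      show Function.update q.2 (Sum.inr j) (Function.update (q.2 (Sum.inr j)) t0 v) p.1 p.2 = _
      rw [hj, Function.update_self, Function.update_of_ne hne]
    · show Function.update q.2 (Sum.inr j) (Function.update (q.2 (Sum.inr j)) t0 v) p.1 p.2 = _
      rw [Function.update_of_ne hj]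
  have hq2 : ∀ p ∈ F2, q.2 p.1 p.2 = x2 p.1 p.2 := by
    intro p hp
    rw [hq.2.1 p (hFG3 hp)]
    exact hx3 p hp
  have hF1x : ∀ p ∈ F1, x2 p.1 p.2 = x p.1 p.2 := hx2
  refine ⟨l, (le_max_left _ _).trans hl, F ∪ G5.filter fun p => p.1 ≠ Sum.inl ζ, x5, Finset.subset_union_left,
    ?_, ?_, ?_⟩
  · intro p hp
    have hpF1 : p ∈ F1 := Finset.mem_union_left _ hp
    have hpF2 : p ∈ F2 := Finset.mem_union_left _ hpF1
    rw [hx5 p (hq.1 (hFG3 hpF2)), hq2 p hpF2, hF1x p hpF1]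
  · intro p hp hpF
    rcases Finset.mem_union.1 hp with hp | hp
    · exact absurd hp hpF
    rw [Finset.mem_filter] at hp
    refine ⟨?_, hp.2⟩
    rcases Finset.mem_insert.1 hp.1 with hp5 | hp5
    · rw [hp5]
      exact inr_mem_Lv hji
    by_cases hi3 : p ∈ G3
    · by_cases hi2 : p ∈ F2
      · rcases Finset.mem_union.1 hi2 with hi1 | hi1
        · rcases Finset.mem_union.1 hi1 with hi0 | hi0
          · exact absurd hi0 hpF
          · obtain ⟨s, _, hse⟩ := Finset.mem_image.1 hi0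
            rw [← hse]
            exact inr_mem_Lv hji
        · exact Lv_mono hji.le (hQ _ hi1)
      · exact Lv_mono hji.le (hG3 _ hi3 hi2).1
    · exact Lv_mono hji.le (hq.2.2 _ hp5 hi3).1
  · intro u hu
    refine ⟨e u, H u ∪ G5.filter fun p => p.1 = Sum.inl ζ, h1 u hu, ?_, ?_, Finset.mem_union_left _ (h4 u hu), ?_⟩
    · intro n hn
      have hpF1 : ((Sum.inl ζ, n) : (Z ⊕ K) × ℕ) ∈ F1 := Finset.mem_union_left _ hn
      rw [h2 u hu n (Finset.mem_union_left _ hpF1)]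
      exact hF1x _ hpF1
    · intro p hp
      rcases Finset.mem_union.1 hp with hp | hp
      · exact h3 u hu p hp
      · exact (Finset.mem_filter.1 hp).2
    · -- forcing
      have hzj : (Sum.inl ζ : Z ⊕ K) ≠ Sum.inr j := by simp
      have hcylA : ∀ y ∈ cyl (G5 ∪ H u) (Function.update x5 (Sum.inl ζ) (e u)),
          y ∈ cyl (q.1 ∪ H u) (Function.update q.2 (Sum.inl ζ) (e u)) := by
        intro y hy p hp
        have hp5 : p ∈ G5 ∪ H u := by
          rcases Finset.mem_union.1 hp with hp | hp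
          · exact Finset.mem_union_left _ (Finset.mem_insert_of_mem hp)
          · exact Finset.mem_union_right _ hp
        rw [hy p hp5]
        by_cases hz : p.1 = Sum.inl ζ
        · rw [hz, Function.update_self, Function.update_self]
        · rw [Function.update_of_ne hz, Function.update_of_ne hz]
          rcases Finset.mem_union.1 hp with hp | hp
          · exact hx5 p hp
          · exact absurd (h3 u hu p hp) hz
      have hcylQ : ∀ y ∈ cyl (G5 ∪ H u) (Function.update x5 (Sum.inl ζ) (e u)), y ∈ cyl Q x2 := by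
        intro y hy p hp
        have hpF2 : p ∈ F2 := Finset.mem_union_right _ hp
        have hpq : p ∈ q.1 := hq.1 (hFG3 hpF2)
        rw [hy p (Finset.mem_union_left _ (Finset.mem_insert_of_mem hpq))]
        by_cases hz : p.1 = Sum.inl ζ
        · have hp' : ((Sum.inl ζ, p.2) : (Z ⊕ K) × ℕ) ∈ F2 := by
            rw [← hz]
            exact hpF2
          rw [hz, Function.update_self]
          exact h2 u hu p.2 hp'
        · rw [Function.update_of_ne hz, hx5 p hpq, hq2 p hpF2]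
      have hkey : Fc (G5 ∪ H u) (Function.update x5 (Sum.inl ζ) (e u)) fun y =>
          l ∈ St (opB (y (Sum.inr j)) (h y) (c y) (a y)) := by
        have h7' : ∀ᶠ y in residual (Coh (Z ⊕ K)),
            y ∈ cyl (q.1 ∪ H u) (Function.update q.2 (Sum.inl ζ) (e u)) → φ (n' u) (b u) (k u) y := h7 u hu
        have hQf' : ∀ᶠ y in residual (Coh (Z ⊕ K)), y ∈ cyl Q x2 → h y a0 = w := hQf
        show ∀ᶠ y in residual (Coh (Z ⊕ K)), y ∈ cyl (G5 ∪ H u) (Function.update x5 (Sum.inl ζ) (e u)) →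
          l ∈ St (opB (y (Sum.inr j)) (h y) (c y) (a y))
        filter_upwards [h7', hQf'] with y hy7 hyQ hy
        obtain ⟨k1, k2, k3, k4, k5⟩ := hy7 (hcylA y hy)
        have hyw : h y a0 = w := hyQ (hcylQ y hy)
        -- the coordinate inr j of y
        have hyj : ∀ s, s < t0 → y (Sum.inr j) s = x (Sum.inr j) s := by
          intro s hs
          have hpF1 : ((Sum.inr j, s) : (Z ⊕ K) × ℕ) ∈ F1 :=
            Finset.mem_union_right _ (Finset.mem_image.2 ⟨s, Finset.mem_range.2 hs, rfl⟩)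
          have hpF2 : ((Sum.inr j, s) : (Z ⊕ K) × ℕ) ∈ F2 := Finset.mem_union_left _ hpF1
          have hpq := hq.1 (hFG3 hpF2)
          have e1 := hcylA y hy (Sum.inr j, s) (Finset.mem_union_left _ hpq)
          simp only at e1
          rw [e1, Function.update_of_ne hzj.symm]
          exact (hq2 _ hpF2).trans (hF1x _ hpF1)
        have hyt : y (Sum.inr j) t0 = v := by
          have e1 := hy (Sum.inr j, t0) (Finset.mem_union_left _ (Finset.mem_insert_self _ _))
          simp only at e1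
          rw [e1, Function.update_of_ne hzj.symm]
          show Function.update q.2 (Sum.inr j) (Function.update (q.2 (Sum.inr j)) t0 v) (Sum.inr j) t0 = v
          rw [Function.update_self, Function.update_self]
        have hst : st (y (Sum.inr j)) t0 = a0 := st_congr hyj
        have hst1 : st (y (Sum.inr j)) (t0 + 1) = a0 + (B + 1) := by
          rw [st_succ, hst]
          unfold len
          rw [hyt, Nat.unpair_pair]
        have hD : ∀ u', u' < 2 ^ l → (cl (k u') : Set Cantor) ⊆ Dset (y (Sum.inr j)) t0 := by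
          intro u' hu'
          unfold Dset
          rw [hyt, Nat.unpair_pair, if_pos hv0]
          exact hv1 u' hu'
        -- neighbourhoods of large points lie in the block t0
        have hnb : ∀ n, w < n → h y n ≤ b u → ∀ m, m ≤ h y n → n ≤ h y m → idx (y (Sum.inr j)) m = t0 := by
          intro n hn hb m hm1 hm2
          apply idx_eq
          · rw [hst]
            by_contra hlt
            have h8 : h y m ≤ h y a0 := (hnice y).1 (le_of_lt (not_le.1 hlt))
            rw [hyw] at h8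
            omega
          · rw [hst1]
            have h9 := hB' u hu
            omega
        have hgood : Good (y (Sum.inr j)) (h y) (c y) (St (a y)) t0 := by
          refine ⟨n' u, k2, hnb (n' u) (h5 u hu) k4, ?_⟩
          rw [k5]
          exact hD u hu
        rw [mem_St_opB]
        refine ⟨k1, fun m hm1 hm2 => ?_⟩
        rw [hnb l hwl k3 m hm1 hm2]
        exact hgood
      apply hkey.mono
      · intro p hp
        rcases Finset.mem_union.1 hp with hp | hp
        · by_cases hz : p.1 = Sum.inl ζ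
          · exact Finset.mem_union_right _ (Finset.mem_union_right _ (Finset.mem_filter.2 ⟨hp, hz⟩))
          · exact Finset.mem_union_left _ (Finset.mem_union_right _ (Finset.mem_filter.2 ⟨hp, hz⟩))
        · exact Finset.mem_union_right _ (Finset.mem_union_left _ hp)
      · exact mem_cyl_self _ _

end SSx

/-! F4 -/

open Classical in
theorem SS_of_BsN (ζ : Z) {i : K} {a : Coh (Z ⊕ K) → R} (h : BsN i a) : SS ζ i a := by
  induction h with
  | one i =>
    intro F x N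
    obtain ⟨l, hl, hlF⟩ : ∃ l, N ≤ l ∧ ∀ n, (Sum.inl ζ, n) ∈ F → n < l := by
      refine ⟨max N ((F.sup fun p => p.2) + 1), le_max_left _ _, fun n hn => ?_⟩
      have : n ≤ F.sup fun p => p.2 := Finset.le_sup (f := fun p : (Z ⊕ K) × ℕ => p.2) hn
      exact (Nat.lt_succ_of_le this).trans_le (le_max_right _ _)
    refine ⟨l, hl, F, x, Finset.Subset.refl _, mem_cyl_self _ _, fun p hp hp' => absurd hp hp', fun u hu => ?_⟩
    refine ⟨Function.update (x (Sum.inl ζ)) l u, {(Sum.inl ζ, l)}, ?_, ?_, ?_, Finset.mem_singleton_self _, ?_⟩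
    · rw [Function.update_self, Nat.mod_eq_of_lt hu]
    · intro n hn
      rw [Function.update_of_ne (hlF n hn).ne]
    · intro p hp
      rw [Finset.mem_singleton] at hp
      rw [hp]
    · exact Filter.Eventually.of_forall fun y _ => by simp [St]
  | @step j i a h c hji hB hh hc hhd hcd hnice hnull ih =>
    exact SSx.step ζ hji hB hh hc hhd hcd hnice hnull ih

theorem BsN.infinite [Nonempty Z] {i : K} {a : Coh (Z ⊕ K) → R} (h : BsN i a) :
    Frc fun x => (St (a x)).Infinite :=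
  SSx.inf_of_SS (Classical.arbitrary Z) (SSx.meas h) (SS_of_BsN _ h)

end Pool.Agent.Fo65
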