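import Pool.Agent.Fo65.Dir
import Pool.Agent.Fo65.SS

/-!
MP_50671f, forced form: the covering property of the sets attached to the Cohen reals with
indices in Z.
-/

namespace Pool.Agent.Fo65

open MeasureTheory Set Cardinal TopologicalSpace Filter Pool.Agent.Nm65

variable {Z K : Type} [LinearOrder K]

lemma measurable_code (l : ℕ) : Measurable fun x : Cantor => code x l := by
  refine measurable_to_countable' fun v => ?_
  by_cases hv : v < 2 ^ l
  · have : (fun x : Cantor => code x l) ⁻¹' {v} = cE (fun _ => v) l := by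
      ext x
      simp [cE, Nat.mod_eq_of_lt hv]
    rw [this]
    exact measurableSet_of_isClopen ((cE_omegaBar _).1 l)
  · have : (fun x : Cantor => code x l) ⁻¹' {v} = ∅ := by
      ext x
      have := code_lt x l
      simp only [mem_preimage, mem_singleton_iff, mem_empty_iff_false, iff_false]
      omega
    rw [this]
    exact MeasurableSet.empty

theorem coverN (ζ : Z) {y : Coh (Z ⊕ K) → Cantor} (hy : Measurable y) {C : Set (Z ⊕ K)}
    (hC : DependsOn y C) (hζ : Sum.inl ζ ∉ C) (x : Coh (Z ⊕ K)) :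
    x ∉ JN fun z => {n | y z ∈ cE (z (Sum.inl ζ)) n} := by
  classical
  rintro ⟨i, a, ha, F, hF⟩
  -- the finite exceptional set is bounded by a number in the ground model
  have hmφ : ∀ N : ℕ, MeasurableSet {z : Coh (Z ⊕ K) | ∀ n, N ≤ n → n ∈ St (a z) →
      ¬ (y z ∈ cE (z (Sum.inl ζ)) n)} := by
    intro N
    have ham := ha.measurable
    have hcoord : Measurable fun z : Coh (Z ⊕ K) => z (Sum.inl ζ) := measurable_pi_apply _
    refine Measurable.setOf (Measurable.forall fun n => ?_)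
    refine Measurable.imp measurable_const (Measurable.imp ?_ (Measurable.not ?_))
    · exact mb_p1 (fun v => v ≠ 0) (mb_ev' ham n)
    · exact mb_p2 (fun u v => u = v % 2 ^ n) ((measurable_code n).comp hy) (mb_ev' hcoord n)
  have hT : Frc fun z => ∀ N : ℕ, (∀ n, N ≤ n → n ∈ St (a z) → ¬ (y z ∈ cE (z (Sum.inl ζ)) n)) →
      ∃ G, Fc G z fun z => ∀ n, N ≤ n → n ∈ St (a z) → ¬ (y z ∈ cE (z (Sum.inl ζ)) n) :=
    eventually_countable_forall.2 fun N => truth' (hmφ N)
  obtain ⟨x', hx', hfin, hx'T⟩ := hF.exists hT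
  obtain ⟨b, hb⟩ := hfin.bddAbove
  obtain ⟨G0, hG0⟩ := hx'T (b + 1) (by
    intro n hn hna hcon
    have := hb (show n ∈ {n | n ∈ St (a x') ∧ n ∈ {n | y x' ∈ cE (x' (Sum.inl ζ)) n}} from
      ⟨hna, hcon⟩)
    omega)
  obtain ⟨l, hl, G, x1, hFG, hx1, hnew, hu⟩ := SS_of_BsN ζ ha (F ∪ G0) x' (b + 1)
  -- decide the code of the point
  have hmψ : ∀ u : ℕ, MeasurableSet {z : Coh (Z ⊕ K) | code (y z) l = u} := fun u =>
    ((measurable_code l).comp hy) (measurableSet_singleton u)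
  have hdψ : ∀ u : ℕ, DependsOn (fun z : Coh (Z ⊕ K) => code (y z) l = u) C := by
    intro u z z' hz
    have := hC hz
    simp only [this]
  have hTψ : Frc fun z => ∀ u : ℕ, code (y z) l = u → ∃ Q : Finset ((Z ⊕ K) × ℕ),
      (∀ p ∈ Q, p.1 ∈ C) ∧ Fc Q z fun z => code (y z) l = u :=
    eventually_countable_forall.2 fun u => truth (hmψ u) (hdψ u)
  obtain ⟨z0, hz0, hz0T⟩ := hTψ.exists G x1
  obtain ⟨Q, hQC, hQ⟩ := hz0T _ rfl
  obtain ⟨e, H, he, heF, hH, hlH, hfc⟩ := hu (code (y z0) l) (code_lt _ _)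
  set w : Coh (Z ⊕ K) := Function.update z0 (Sum.inl ζ) e with hw
  have hwne : ∀ i, i ≠ Sum.inl ζ → w i = z0 i := fun i hi => Function.update_of_ne hi _ _
  have hwζ : w (Sum.inl ζ) = e := Function.update_self _ _ _
  have h1 : w ∈ cyl (G ∪ H) (Function.update x1 (Sum.inl ζ) e) := by
    intro p hp
    by_cases hpζ : p.1 = Sum.inl ζ
    · rw [hpζ, hwζ, Function.update_self]
    · rw [hwne _ hpζ, Function.update_of_ne hpζ]
      rcases Finset.mem_union.1 hp with h | h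
      · exact hz0 p h
      · exact absurd (hH p h) hpζ
  have h2 : w ∈ cyl Q z0 := by
    intro p hp
    have hpζ : p.1 ≠ Sum.inl ζ := fun h => hζ (h ▸ hQC p hp)
    rw [hwne _ hpζ]
  have h3 : w ∈ cyl (F ∪ G0) x' := by
    rintro ⟨p1, p2⟩ hp
    by_cases hpζ : p1 = Sum.inl ζ
    · subst hpζ
      show w (Sum.inl ζ) p2 = _
      rw [hwζ]
      exact heF p2 hp
    · show w p1 p2 = x' p1 p2
      rw [hwne _ hpζ]
      exact (hz0 (p1, p2) (hFG hp)).trans (hx1 (p1, p2) hp)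
  have h3' : w ∈ cyl G0 x' := fun p hp => h3 p (Finset.mem_union_right _ hp)
  have f1 : Fc (G ∪ H ∪ Q ∪ G0) w fun z => l ∈ St (a z) :=
    hfc.mono (fun p hp => Finset.mem_union_left _ (Finset.mem_union_left _ hp)) h1
  have f2 : Fc (G ∪ H ∪ Q ∪ G0) w fun z => code (y z) l = code (y z0) l :=
    hQ.mono (fun p hp => Finset.mem_union_left _ (Finset.mem_union_right _ hp)) h2
  have f3 := hG0.mono (G := G ∪ H ∪ Q ∪ G0) (fun p hp => Finset.mem_union_right _ hp) h3'
  have hz : ∀ᶠ z in residual (Coh (Z ⊕ K)), z ∈ cyl (G ∪ H ∪ Q ∪ G0) w →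
    (l ∈ St (a z) ∧ code (y z) l = code (y z0) l) ∧
      ∀ n, b + 1 ≤ n → n ∈ St (a z) → ¬ (y z ∈ cE (z (Sum.inl ζ)) n) := (f1.and f2).and f3
  obtain ⟨z, hz1, hz2⟩ := residual_meets hz (G ∪ H ∪ Q ∪ G0) w
  obtain ⟨⟨hz3, hz4⟩, hz5⟩ := hz2 hz1
  refine hz5 l hl hz3 ?_
  have h5 : z (Sum.inl ζ) l = e l := by
    have := hz1 (Sum.inl ζ, l)
      (Finset.mem_union_left _ (Finset.mem_union_left _ (Finset.mem_union_right _ hlH)))
    rw [this]
    show w (Sum.inl ζ) l = e l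
    rw [hwζ]
  show code (y z) l = z (Sum.inl ζ) l % 2 ^ l
  rw [hz4, h5, he]

end Pool.Agent.Fo65
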