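import Pool.Agent.Fo65.Base

/-!
MP_50671f, forced form, row F1: names of base sets; directedness and the star property.
-/

namespace Pool.Agent.Fo65

open MeasureTheory Set Cardinal TopologicalSpace Filter Pool.Agent.Nm65

section meas

variable {X : Type} [MeasurableSpace X]

lemma mb_max {h h' : X → R} (H : Measurable h) (H' : Measurable h') :
    Measurable fun x => (fun n => Max.max (h x n) (h' x n) : R) := by
  rw [measurable_pi_iff]
  intro n
  exact (mb_ev' H n).max (mb_ev' H' n)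

lemma mb_comp {h h' : X → R} (H : Measurable h) (H' : Measurable h') :
    Measurable fun x => (fun n => h x (h' x n) : R) := by
  rw [measurable_pi_iff]
  intro n
  exact mb_ev H (mb_ev' H' n)

lemma mb_uc {h h' : X → R} (H : Measurable h) (H' : Measurable h') :
    Measurable fun x => uc (pr (h x) (h' x)) := by
  rw [measurable_pi_iff]
  intro n
  have h1 : Measurable fun x => Nat.pair (h x n) (h' x n) := by
    refine mb_nat (φ := fun k x => Nat.pair k (h' x n)) (fun k => ?_) (mb_ev' H n)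
    exact mb_f1 (fun v => Nat.pair k v) (mb_ev' H' n)
  exact mb_f1 (fun v => (cl_surj (cl v.unpair.1 ⊔ cl v.unpair.2)).choose) h1

lemma mb_bend {h : X → R} (H : Measurable h) : Measurable fun x => bend (h x) := by
  rw [measurable_pi_iff]
  intro n
  exact mb_st H (mb_f1 (fun v => v + 1) (mb_idx' H n))

end meas

variable {Z K : Type} [LinearOrder K]

lemma Lv_mono {j k : K} (h : j ≤ k) : Lv Z j ⊆ Lv Z k := fun _ hi m hm => (hi m hm).trans_le h

lemma inr_mem_Lv {j k : K} (h : j < k) : (Sum.inr j : Z ⊕ K) ∈ Lv Z k := by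
  intro m hm
  rw [← Sum.inr.inj hm]
  exact h

lemma inl_mem_Lv (z : Z) (k : K) : (Sum.inl z : Z ⊕ K) ∈ Lv Z k := by
  intro m hm
  exact absurd hm (by simp)

lemma meas_coord {I : Type} (i : I) : Measurable fun x : Coh I => x i := measurable_pi_apply i

lemma BsN.mono {i k : K} {a : Coh (Z ⊕ K) → R} (h : BsN i a) (hik : i ≤ k) : BsN k a := by
  cases h with
  | one => exact BsN.one k
  | step hj ha hh hc h1 h2 h3 h4 => exact BsN.step (lt_of_lt_of_le hj hik) ha hh hc h1 h2 h3 h4

lemma BsN.measurable {i : K} {a : Coh (Z ⊕ K) → R} (h : BsN i a) : Measurable a := by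
  induction h with
  | one => exact measurable_const
  | step _ _ hh hc _ _ _ _ ih => exact mb_opB (meas_coord _) hh hc ih

lemma BsN.dependsOn {i : K} {a : Coh (Z ⊕ K) → R} (h : BsN i a) : DependsOn a (Lv Z i) := by
  induction h with
  | one => exact fun _ _ _ => rfl
  | @step j i a h c hj _ _ _ h1 h2 _ _ ih =>
    intro x y hxy
    have e0 : x (Sum.inr j) = y (Sum.inr j) := hxy _ (inr_mem_Lv hj)
    have e1 : h x = h y := h1 fun i hi => hxy i (Lv_mono hj.le hi)
    have e2 : c x = c y := h2 fun i hi => hxy i (Lv_mono hj.le hi)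
    have e3 : a x = a y := ih fun i hi => hxy i (Lv_mono hj.le hi)
    show opB (x (Sum.inr j)) (h x) (c x) (a x) = opB (y (Sum.inr j)) (h y) (c y) (a y)
    rw [e0, e1, e2, e3]

theorem directedN [WellFoundedLT K] (i : K) : ∀ a b : Coh (Z ⊕ K) → R, BsN i a → BsN i b →
    ∃ c, BsN i c ∧ ∀ x, St (c x) ⊆ St (a x) ∧ St (c x) ⊆ St (b x) := by
  induction i using WellFoundedLT.induction with
  | ind i ih =>
  intro a b ha hb
  cases ha with
  | one =>
    refine ⟨b, hb, fun x => ⟨?_, subset_rfl⟩⟩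
    intro n _; simp [St]
  | @step j1 _ a1 h1 c1 hj1 ha1 hh1 hc1 hd1 he1 hn1 hl1 =>
  cases hb with
  | one =>
    refine ⟨_, BsN.step hj1 ha1 hh1 hc1 hd1 he1 hn1 hl1, fun x => ⟨subset_rfl, ?_⟩⟩
    intro n _; simp [St]
  | @step j2 _ b1 h2 c2 hj2 hb1 hh2 hc2 hd2 he2 hn2 hl2 =>
  rcases lt_trichotomy j1 j2 with hlt | heq | hgt
  · obtain ⟨d, hd, hds⟩ := ih j2 hj2 _ _ (BsN.step hlt ha1 hh1 hc1 hd1 he1 hn1 hl1) hb1
    refine ⟨_, BsN.step hj2 hd hh2 hc2 hd2 he2 hn2 hl2, fun x =>
      ⟨opB_subset.trans (hds x).1, ?_⟩⟩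
    exact opB_mono (fun _ => le_rfl) (fun _ => subset_rfl) (hds x).2
  · subst heq
    obtain ⟨d, hd, hds⟩ := ih j1 hj1 _ _ ha1 hb1
    refine ⟨fun x => opB (x (Sum.inr j1)) (fun n => Max.max (h1 x n) (h2 x n))
      (uc (pr (c1 x) (c2 x))) (d x),
      BsN.step hj1 hd (mb_max hh1 hh2) (mb_uc hc1 hc2) ?_ ?_ (fun x => (hn1 x).max (hn2 x)) ?_,
      fun x => ⟨?_, ?_⟩⟩
    · intro x y hxy
      show (fun n => Max.max (h1 x n) (h2 x n) : R) = fun n => Max.max (h1 y n) (h2 y n)
      rw [hd1 hxy, hd2 hxy]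
    · intro x y hxy
      show uc (pr (c1 x) (c2 x)) = uc (pr (c1 y) (c2 y))
      rw [he1 hxy, he2 hxy]
    · filter_upwards [hl1, hl2] with x hx1 hx2
      exact hx1.uc hx2
    · refine opB_mono (fun _ => le_max_left _ _) (fun n => ?_) (hds x).1
      rw [cl_uc]; exact subset_union_left
    · refine opB_mono (fun _ => le_max_right _ _) (fun n => ?_) (hds x).2
      rw [cl_uc]; exact subset_union_right
  · obtain ⟨d, hd, hds⟩ := ih j1 hj1 _ _ ha1 (BsN.step hgt hb1 hh2 hc2 hd2 he2 hn2 hl2)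
    refine ⟨_, BsN.step hj1 hd hh1 hc1 hd1 he1 hn1 hl1, fun x =>
      ⟨?_, opB_subset.trans (hds x).2⟩⟩
    exact opB_mono (fun _ => le_rfl) (fun _ => subset_rfl) (hds x).1

/-- The star property for names. -/
theorem starN {i : K} {a : Coh (Z ⊕ K) → R} (ha : BsN i a) :
    ∀ (α : K) (c : Coh (Z ⊕ K) → R), Measurable c → DependsOn c (Lv Z α) →
      (Frc fun x => Null (c x)) → ∀ k, i ≤ k → α < k → ∃ a', BsN k a' ∧ ∀ x,
        St (a' x) ⊆ St (a x) ∧ ∀ n ∈ St (a' x), ∃ n' ∈ St (a x),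
          idx (x (Sum.inr α)) n' = idx (x (Sum.inr α)) n ∧
          (cl (c x n') : Set Cantor) ⊆ Dset (x (Sum.inr α)) (idx (x (Sum.inr α)) n) := by
  -- the basic step: the level of a is at most α; modulus = the maximum of the block ends of
  -- a constant real
  have basic : ∀ {a : Coh (Z ⊕ K) → R} (α : K) (c : Coh (Z ⊕ K) → R), BsN α a → Measurable c →
      DependsOn c (Lv Z α) → (Frc fun x => Null (c x)) → ∀ k, α < k →
      ∃ a', BsN k a' ∧ ∀ x,
        St (a' x) ⊆ St (a x) ∧ ∀ n ∈ St (a' x), ∃ n' ∈ St (a x),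
          idx (x (Sum.inr α)) n' = idx (x (Sum.inr α)) n ∧
          (cl (c x n') : Set Cantor) ⊆ Dset (x (Sum.inr α)) (idx (x (Sum.inr α)) n) := by
    intro a α c ha hc hd hl k hk
    have hnid : Nice (fun n => n : R) := ⟨fun _ _ h => h, fun _ => le_rfl⟩
    refine ⟨fun x => opB (x (Sum.inr α)) ((fun _ => (fun n => n : R)) x) (c x) (a x),
      BsN.step hk ha measurable_const hc (fun _ _ _ => rfl) hd (fun _ => hnid) hl,
      fun x => ⟨opB_subset, ?_⟩⟩
    intro n hn
    obtain ⟨n', hn', h2, h3⟩ := (mem_St_opB.1 hn).2 n le_rfl le_rfl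
    exact ⟨n', hn', h2 n' le_rfl le_rfl, h3⟩
  induction ha with
  | one i =>
    intro α c hc hd hl k _ hk
    exact basic α c (BsN.one α) hc hd hl k hk
  | @step j i a1 h1 c1 hji ha1 hh1 hc1 hd1 he1 hn1 hl1 ih =>
    intro α c hc hd hl k hik hk
    have hjk : j < k := lt_of_lt_of_le hji hik
    rcases lt_trichotomy j α with hlt | heq | hgt
    · exact basic α c (BsN.step hlt ha1 hh1 hc1 hd1 he1 hn1 hl1) hc hd hl k hk
    · subst heq
      refine ⟨fun x => opB (x (Sum.inr j)) (h1 x) (uc (pr (c1 x) (c x))) (a1 x),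
        BsN.step hjk ha1 hh1 (mb_uc hc1 hc) hd1 ?_ hn1 ?_, fun x => ⟨?_, ?_⟩⟩
      · intro x y hxy
        show uc (pr (c1 x) (c x)) = uc (pr (c1 y) (c y))
        rw [he1 hxy, hd hxy]
      · have hl' : ∀ᶠ x in residual (Coh (Z ⊕ K)), Null (c x) := hl
        filter_upwards [hl1, hl'] with x hx1 hx2
        exact hx1.uc hx2
      · refine opB_mono (fun _ => le_rfl) (fun n => ?_) subset_rfl
        rw [cl_uc]; exact subset_union_left
      · intro n hn
        obtain ⟨n', hn', h2, h3⟩ := (mem_St_opB.1 hn).2 n ((hn1 x).2 n) ((hn1 x).2 n)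
        rw [cl_uc] at h3
        have h4 : (cl (c1 x n') : Set Cantor) ⊆
            Dset (x (Sum.inr j)) (idx (x (Sum.inr j)) n) := subset_union_left.trans h3
        have h5 : (cl (c x n') : Set Cantor) ⊆
            Dset (x (Sum.inr j)) (idx (x (Sum.inr j)) n) := subset_union_right.trans h3
        refine ⟨n', mem_St_opB.2 ⟨hn', fun m a1' a2' => ?_⟩, h2 n' ((hn1 x).2 _) ((hn1 x).2 _),
          h5⟩
        rw [h2 m a1' a2']
        exact ⟨n', hn', h2, h4⟩
    · obtain ⟨d, hdd, hds⟩ := ih α c hc hd hl j le_rfl hgt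
      have hbm : Measurable fun x : Coh (Z ⊕ K) => bend (x (Sum.inr α)) :=
        mb_bend (meas_coord _)
      set H : Coh (Z ⊕ K) → R := fun x n => Max.max (h1 x n) (bend (x (Sum.inr α)) n) with hH
      have hHM : Measurable H := mb_max hh1 hbm
      have hHd : DependsOn H (Lv Z j) := by
        intro x y hxy
        show (fun n => Max.max (h1 x n) (bend (x (Sum.inr α)) n) : R)
          = fun n => Max.max (h1 y n) (bend (y (Sum.inr α)) n)
        rw [hd1 hxy, hxy _ (inr_mem_Lv hgt)]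
      have hHn : ∀ x, Nice (H x) := fun x => (hn1 x).max (nice_bend _)
      have hle : ∀ x n, h1 x n ≤ H x (H x n) := fun x n => (le_max_left _ _).trans ((hHn x).2 _)
      refine ⟨fun x => opB (x (Sum.inr j)) ((fun x n => H x (H x n)) x) (c1 x) (d x),
        BsN.step hjk hdd (mb_comp hHM hHM) hc1 ?_ he1 (fun x => (hHn x).comp (hHn x)) hl1,
        fun x => ⟨opB_mono (hle x) (fun _ => subset_rfl) (hds x).1, ?_⟩⟩
      · intro x y hxy
        show (fun n => H x (H x n) : R) = fun n => H y (H y n)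
        rw [hHd hxy]
      intro n hn
      rw [mem_St_opB] at hn
      obtain ⟨n', hn', h2, h3⟩ := (hds x).2 n hn.1
      refine ⟨n', mem_St_opB.2 ⟨hn', fun m a1' a2' => ?_⟩, h2, h3⟩
      have e1 : n' ≤ H x n := by
        have := (idx_spec (x (Sum.inr α)) n').2
        rw [h2] at this
        exact this.le.trans (le_max_right _ _)
      have e2 : n ≤ H x n' := by
        have := (idx_spec (x (Sum.inr α)) n).2
        rw [← h2] at this
        exact this.le.trans (le_max_right _ _)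
      have e3 : m ≤ H x (H x n) := a1'.trans ((le_max_left _ _).trans ((hHn x).1 e1))
      have e4 : n ≤ H x (H x m) := e2.trans ((hHn x).1 (a2'.trans (le_max_left _ _)))
      exact (hn.2 m e3 e4).mono (hle x) (fun _ => subset_rfl) (hds x).1

end Pool.Agent.Fo65
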