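import Pool.Agent.Nm65.OB
import Pool.Agent.Nm65.Bor3

/-!
MP_50671f: the forced form. Cohen forcing adding a family of Cohen reals, in the language of
Baire category. A real of the extension is a Borel function of the family of Cohen reals, a
statement is forced if it holds on a residual set.
-/

namespace Pool.Agent.Fo65

open MeasureTheory Set Cardinal TopologicalSpace Filter Pool.Agent.Nm65

/-- The space of families of reals indexed by I. The Cohen forcing for adding I many reals is
the family of its nonempty basic open sets. -/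
abbrev Coh (I : Type) : Type := I → ℕ → ℕ

/-- `φ` is forced: it holds for all families in a residual set. -/
def Frc {I : Type} (φ : Coh I → Prop) : Prop := ∀ᶠ x in residual (Coh I), φ x

/-- A name of a sequence in OmegaBar: a Borel function to the sequences of clopen sets, forced
to be in OmegaBar. -/
def OBName {I : Type} (c : Coh I → ℕ → Clopens Cantor) : Prop :=
  (∀ n K, MeasurableSet {x | c x n = K}) ∧ Frc fun x => OmegaBar fun n => (c x n : Set Cantor)

/-- A name of an ideal: to each name `A` of a set of natural numbers it attaches the open set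
`J A`, the truth value of `A` being in the ideal. -/
structure IdealName {I : Type} (J : (Coh I → Set ℕ) → Set (Coh I)) : Prop where
  isOpen : ∀ A, IsOpen (J A)
  sub : ∀ A B, Measurable A → Measurable B → Frc fun x => B x ⊆ A x → x ∈ J A → x ∈ J B
  union : ∀ A B, Measurable A → Measurable B →
    Frc fun x => x ∈ J A → x ∈ J B → x ∈ J fun z => A z ∪ B z
  fin : ∀ A, Measurable A → Frc fun x => (A x).Finite → x ∈ J A
  proper : Frc fun x => x ∉ J fun _ => Set.univ

/-- The list `t` of bits is an initial segment of the characteristic function of `A`. -/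
def Init (t : List Bool) (A : Set ℕ) : Prop := ∀ k (h : k < t.length), t[k] = true ↔ k ∈ A

/-- It is forced that the ideal is not meager: for every name `W` of a sequence of dense sets of
finite binary sequences (so of dense open subsets of the Cantor space) there is a name of a member
of the ideal which is in all these open sets. -/
def NonMeagerName {I : Type} (J : (Coh I → Set ℕ) → Set (Coh I)) : Prop :=
  ∀ W : Coh I → Set (ℕ × List Bool), Measurable W →
    (Frc fun x => ∀ k s, ∃ t, s <+: t ∧ (k, t) ∈ W x) →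
    ∃ A : Coh I → Set ℕ, Measurable A ∧ Frc fun x => x ∈ J A ∧ ∀ k, ∃ t, (k, t) ∈ W x ∧ Init t (A x)

/-- It is forced that at most κ many sets `N_J(c)` cover the Cantor space (indexed by a set of
the ground model; for each name y of a point one ξ works). -/
def CovNLe {I : Type} (J : (Coh I → Set ℕ) → Set (Coh I)) (κ : Cardinal) : Prop :=
  ∃ (Ξ : Type) (c : Ξ → Coh I → ℕ → Clopens Cantor), #Ξ ≤ κ ∧ (∀ ξ, OBName (c ξ)) ∧
    ∀ y : Coh I → Cantor, Measurable y → ∃ ξ, Frc fun x => x ∉ J fun z => {n | y z ∈ c ξ z n}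

/-- It is forced that the union of at most κ many sets `N*_J(c)` is contained in one. -/
def AddNsGt {I : Type} (J : (Coh I → Set ℕ) → Set (Coh I)) (κ : Cardinal) : Prop :=
  ∀ (Ξ : Type) (c : Ξ → Coh I → ℕ → Clopens Cantor), #Ξ ≤ κ → (∀ ξ, OBName (c ξ)) →
    ∃ d : Coh I → ℕ → Clopens Cantor, OBName d ∧ ∀ ξ (y : Coh I → Cantor), Measurable y →
      Frc fun x => (x ∈ J fun z => {n | y z ∉ c ξ z n}) → x ∈ J fun z => {n | y z ∉ d z n}

/-- It is forced that each set of at most κ many points is contained in some `N_J(c)`. -/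
def NonNGt {I : Type} (J : (Coh I → Set ℕ) → Set (Coh I)) (κ : Cardinal) : Prop :=
  ∀ (Ξ : Type) (y : Ξ → Coh I → Cantor), #Ξ ≤ κ → (∀ ξ, Measurable (y ξ)) →
    ∃ c : Coh I → ℕ → Clopens Cantor, OBName c ∧
      ∀ ξ, Frc fun x => x ∉ J fun z => {n | y ξ z ∈ c z n}

/-- It is forced that at most κ many sets `N*_J(d)` are cofinal in `N*_J` (for each name c of
an element of OmegaBar one ξ works). -/
def CofNsLe {I : Type} (J : (Coh I → Set ℕ) → Set (Coh I)) (κ : Cardinal) : Prop :=
  ∃ (Ξ : Type) (d : Ξ → Coh I → ℕ → Clopens Cantor), #Ξ ≤ κ ∧ (∀ ξ, OBName (d ξ)) ∧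
    ∀ c : Coh I → ℕ → Clopens Cantor, OBName c → ∃ ξ, ∀ y : Coh I → Cantor, Measurable y →
      Frc fun x => (x ∈ J fun z => {n | y z ∉ c z n}) → x ∈ J fun z => {n | y z ∉ d ξ z n}

/-! ### The construction -/

variable {Z K : Type}

/-- Condition (finite partial function): the family agrees with x on the finite set F. -/
def cyl {I : Type} (F : Finset (I × ℕ)) (x : Coh I) : Set (Coh I) :=
  {y | ∀ p ∈ F, y p.1 p.2 = x p.1 p.2}

/-- The condition (F, x) forces φ. -/
def Fc {I : Type} (F : Finset (I × ℕ)) (x : Coh I) (φ : Coh I → Prop) : Prop :=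
  ∀ᶠ y in residual (Coh I), y ∈ cyl F x → φ y

variable [LinearOrder K]

/-- Coordinates below j. -/
def Lv (Z : Type) {K : Type} [LinearOrder K] (j : K) : Set (Z ⊕ K) :=
  {i | ∀ k, i = Sum.inr k → k < j}

/-- Names of base sets of the dual filter: those of levels below i. -/
inductive BsN : K → (Coh (Z ⊕ K) → R) → Prop
  | one (i : K) : BsN i (fun _ _ => 1)
  | step {j i : K} {a h c : Coh (Z ⊕ K) → R} : j < i → BsN j a → Measurable h → Measurable c →
      DependsOn h (Lv Z j) → DependsOn c (Lv Z j) → (∀ x, Nice (h x)) →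
      (∀ᶠ x in residual (Coh (Z ⊕ K)), Null (c x)) →
      BsN i (fun x => opB (x (Sum.inr j)) (h x) (c x) (a x))

/-- The name of the ideal. -/
def JN (A : Coh (Z ⊕ K) → Set ℕ) : Set (Coh (Z ⊕ K)) :=
  {x | ∃ i a, BsN i a ∧ ∃ F, Fc F x fun y => {n | n ∈ St (a y) ∧ n ∈ A y}.Finite}

open Classical in
/-- The key property (see F4): for every condition there is an l, arbitrarily large, such that
l in a can be forced without deciding e l, where e is the coordinate zeta. -/
def SS (ζ : Z) (i : K) (a : Coh (Z ⊕ K) → R) : Prop :=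
  ∀ (F : Finset ((Z ⊕ K) × ℕ)) (x : Coh (Z ⊕ K)) (N : ℕ), ∃ l, N ≤ l ∧
    ∃ (G : Finset ((Z ⊕ K) × ℕ)) (x1 : Coh (Z ⊕ K)), F ⊆ G ∧ x1 ∈ cyl F x ∧
      (∀ p ∈ G, p ∉ F → p.1 ∈ Lv Z i ∧ p.1 ≠ Sum.inl ζ) ∧
      ∀ u, u < 2 ^ l → ∃ (e : R) (H : Finset ((Z ⊕ K) × ℕ)), e l % 2 ^ l = u ∧
        (∀ n, (Sum.inl ζ, n) ∈ F → e n = x (Sum.inl ζ) n) ∧
        (∀ p ∈ H, p.1 = Sum.inl ζ) ∧ (Sum.inl ζ, l) ∈ H ∧
        Fc (G ∪ H) (Function.update x1 (Sum.inl ζ) e) fun y => l ∈ St (a y)

end Pool.Agent.Fo65
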