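import Pool.Agent.Fo65.Base

/-!
MP_50671f, forced form: the ideal `JN` is forced to be non-meager.
-/

namespace Pool.Agent.Fo65

open MeasureTheory Set Cardinal TopologicalSpace Filter Pool.Agent.Nm65

variable {Z K : Type} [LinearOrder K]

/-- The member of the ideal built from the generic blocks of `g` and the generic bits of `b`. -/
def AA (g b : R) : Set ℕ := {n | Dset g (idx g n) = ∅ ∧ b n = 0}

lemma nice_id : Nice fun n => n := ⟨fun _ _ h => h, fun _ => le_rfl⟩

/-- The base set disjoint from AA. -/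
lemma disj_AA {g b : R} {n : ℕ} (hn : n ∈ St (opB g (fun n => n) cNE fun _ => 1)) :
    n ∉ AA g b := by
  rintro ⟨h1, _⟩
  obtain ⟨_, h2⟩ := mem_St_opB.1 hn
  obtain ⟨n', _, _, h3⟩ := h2 n le_rfl le_rfl
  rw [h1] at h3
  obtain ⟨y, hy⟩ := cNE_nonempty n'
  exact h3 hy

lemma mem_JN_AA {j j' : K} (hj : j < j') (x : Coh (Z ⊕ K)) :
    x ∈ JN fun z : Coh (Z ⊕ K) => AA (z (Sum.inr j)) (z (Sum.inr j')) := by
  refine ⟨j', fun z => opB (z (Sum.inr j)) (fun n => n) cNE (fun _ => 1),
    BsN.step (h := fun _ n => n) (c := fun _ => cNE) hj (BsN.one j) measurable_const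
      measurable_const (fun _ _ _ => rfl) (fun _ _ _ => rfl) (fun _ => nice_id)
      (Eventually.of_forall fun _ => null_cNE), ∅, Eventually.of_forall fun y _ => ?_⟩
  have h : {n | n ∈ St (opB (y (Sum.inr j)) (fun n => n) cNE fun _ => 1) ∧
      n ∈ AA (y (Sum.inr j)) (y (Sum.inr j'))} = ∅ := by
    ext n
    simp only [mem_ofPred_eq, mem_empty_iff_false, iff_false, not_and]
    exact fun h1 => disj_AA h1
  show Set.Finite {n | n ∈ St (opB (y (Sum.inr j)) (fun n => n) cNE fun _ => 1) ∧
      n ∈ AA (y (Sum.inr j)) (y (Sum.inr j'))}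
  rw [h]
  exact Set.finite_empty

lemma mb_AA {X : Type} [MeasurableSpace X] {g b : X → R} (hg : Measurable g) (hb : Measurable b)
    (n : ℕ) : Measurable fun x => n ∈ AA (g x) (b x) := by
  refine Measurable.and ?_ (mb_p1 (fun v => v = 0) (mb_ev' hb n))
  have h : (fun x => Dset (g x) (idx (g x) n) = ∅) =
      fun x => (fun v k : ℕ => Dset (fun _ => v) k = ∅) (g x (idx (g x) n)) (idx (g x) n) := by
    funext x
    have : Dset (g x) (idx (g x) n) = Dset (fun _ => g x (idx (g x) n)) (idx (g x) n) :=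
      Dset_congr rfl
    rw [this]
  rw [h]
  exact mb_p2 (fun v k : ℕ => Dset (fun _ => v) k = ∅) (mb_ev hg (mb_idx' hg n)) (mb_idx' hg n)

lemma idx_congr_lt {g g' : R} {N n : ℕ} (h : ∀ s < N, g s = g' s) (hn : n < st g N) :
    idx g' n = idx g n ∧ idx g n < N := by
  obtain ⟨h1, h2⟩ := idx_spec g n
  have h3 : idx g n < N := by
    by_contra hcon
    have := (st_strictMono g).monotone (not_lt.1 hcon)
    omega
  refine ⟨idx_eq ?_ ?_, h3⟩
  · rw [← st_congr (g := g) fun s hs => h s (hs.trans h3)]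
    exact h1
  · rw [← st_congr (g := g) fun s hs => h s (by omega)]
    exact h2

lemma mem_AA_congr {g g' b b' : R} {N n : ℕ} (h : ∀ s < N, g s = g' s) (hn : n < st g N)
    (hb : b n = b' n) : n ∈ AA g' b' ↔ n ∈ AA g b := by
  obtain ⟨h1, h2⟩ := idx_congr_lt h hn
  have h3 : Dset g' (idx g' n) = Dset g (idx g n) := by
    rw [h1]; exact (Dset_congr (h _ h2)).symm
  simp only [AA, mem_ofPred_eq, h3, hb]

open Classical in
theorem nonMeagerName (hK : ∀ S : Set K, S.Countable → ∃ j, ∀ k ∈ S, k < j) :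
    NonMeagerName (JN (Z := Z) (K := K)) := by
  intro W hW hdense
  -- supports
  obtain ⟨C, hC, hCW⟩ : ∃ C : Set (Z ⊕ K), C.Countable ∧
      DependsOn (fun (x : Coh (Z ⊕ K)) (p : ℕ × List Bool) => (p ∈ W x : Prop)) C := by
    refine support_fun fun p b => ?_
    have hp : Measurable fun x => p ∈ W x := measurable_set_iff.1 hW p
    exact hp (MeasurableSet.of_discrete (s := {b}))
  obtain ⟨j, hj⟩ := hK (Sum.inr ⁻¹' C) (hC.preimage Sum.inr_injective)
  obtain ⟨j', hj'⟩ := hK {j} (countable_singleton j)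
  have hjj' : j < j' := hj' j rfl
  have hCL : C ⊆ Lv Z j := by
    rintro i hi k rfl
    exact hj k hi
  have hdep : ∀ p : ℕ × List Bool, DependsOn (fun x : Coh (Z ⊕ K) => p ∈ W x) (Lv Z j) := by
    intro p x x' hxx'
    have := hCW fun i hi => hxx' i (hCL hi)
    exact congrFun this p
  have hpm : ∀ p : ℕ × List Bool, MeasurableSet {x | p ∈ W x} := fun p =>
    (measurable_set_iff.1 hW p).setOf
  have htruth : Frc fun x : Coh (Z ⊕ K) => ∀ p : ℕ × List Bool, p ∈ W x →
      ∃ F : Finset ((Z ⊕ K) × ℕ), (∀ q ∈ F, q.1 ∈ Lv Z j) ∧ Fc F x fun z => p ∈ W z :=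
    eventually_countable_forall.2 fun p => truth (hpm p) (hdep p)
  have hAn : ∀ n, Measurable fun x : Coh (Z ⊕ K) => n ∈ AA (x (Sum.inr j)) (x (Sum.inr j')) :=
    fun n => mb_AA (measurable_pi_apply _) (measurable_pi_apply _) n
  have hInit : ∀ t : List Bool, Measurable fun x : Coh (Z ⊕ K) =>
      Init t (AA (x (Sum.inr j)) (x (Sum.inr j'))) := by
    intro t
    show Measurable fun x : Coh (Z ⊕ K) => ∀ k (h : k < t.length), t[k] = true ↔
      k ∈ AA (x (Sum.inr j)) (x (Sum.inr j'))
    refine Measurable.forall fun k => Measurable.forall fun h => ?_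
    exact measurable_const.iff (hAn k)
  refine ⟨fun x => AA (x (Sum.inr j)) (x (Sum.inr j')), measurable_set_iff.2 hAn, ?_⟩
  have key : ∀ k, Frc fun x : Coh (Z ⊕ K) => ∃ t, (k, t) ∈ W x ∧
      Init t (AA (x (Sum.inr j)) (x (Sum.inr j'))) := by
    intro k
    refine frc_of_dense ?_ ?_
    · apply Measurable.setOf
      exact Measurable.exists fun t => (measurable_set_iff.1 hW (k, t)).and (hInit t)
    intro F x
    -- bound for the positions used
    let N0 : ℕ := F.sup (fun p => p.2) + 1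
    have hN0 : ∀ p ∈ F, p.2 < N0 := fun p hp => Nat.lt_succ_of_le (Finset.le_sup (f := fun p => p.2) hp)
    let g : R := x (Sum.inr j)
    let a0 : ℕ := st g N0
    have ha0 : N0 ≤ a0 := le_st g N0
    let F2 : Finset ((Z ⊕ K) × ℕ) := F ∪ ((Finset.range N0).image (fun s => (Sum.inr j, s)) ∪
      (Finset.range a0).image (fun n => (Sum.inr j', n)))
    have hF2j : ∀ s < N0, (Sum.inr j, s) ∈ F2 := fun s hs =>
      Finset.mem_union_right _ (Finset.mem_union_left _
        (Finset.mem_image.2 ⟨s, Finset.mem_range.2 hs, rfl⟩))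
    have hF2j' : ∀ n < a0, (Sum.inr j', n) ∈ F2 := fun n hn =>
      Finset.mem_union_right _ (Finset.mem_union_right _
        (Finset.mem_image.2 ⟨n, Finset.mem_range.2 hn, rfl⟩))
    have hF2free : ∀ p ∈ F2, ¬ (p.1 = Sum.inr j ∧ N0 ≤ p.2) ∧ ¬ (p.1 = Sum.inr j' ∧ a0 ≤ p.2) := by
      intro p hp
      rcases Finset.mem_union.1 hp with hp | hp
      · have := hN0 p hp
        exact ⟨fun h => by omega, fun h => by omega⟩
      rcases Finset.mem_union.1 hp with hp | hp
      · obtain ⟨s, hs, rfl⟩ := Finset.mem_image.1 hp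
        have := Finset.mem_range.1 hs
        refine ⟨fun h => by dsimp only at h; omega, fun h => ?_⟩
        have h1 : j = j' := Sum.inr_injective h.1
        exact absurd h1 hjj'.ne
      · obtain ⟨s, hs, rfl⟩ := Finset.mem_image.1 hp
        have := Finset.mem_range.1 hs
        refine ⟨fun h => ?_, fun h => by dsimp only at h; omega⟩
        have h1 : j' = j := Sum.inr_injective h.1
        exact absurd h1 hjj'.ne'
    let s0 : List Bool := (List.range a0).map fun n => decide (n ∈ AA g (x (Sum.inr j')))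
    -- a generic point of F2
    obtain ⟨y, hyF2, hy1, hy2⟩ := (hdense.fc F2 x).exists htruth
    obtain ⟨t, hst, htW⟩ := hy1 k s0
    obtain ⟨F3, hF3, hF3W⟩ := hy2 (k, t) htW
    obtain ⟨e0, he0⟩ := cl_surj (⊥ : Clopens Cantor)
    -- the new point
    let x1 : Coh (Z ⊕ K) := fun i n =>
      if i = Sum.inr j ∧ N0 ≤ n then Nat.pair t.length e0
      else if i = Sum.inr j' ∧ a0 ≤ n then (if h : n < t.length then (if t[n] = true then 0 else 1) else 0)
      else y i n
    have hx1F2 : ∀ p ∈ F2, x1 p.1 p.2 = y p.1 p.2 := by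
      intro p hp
      obtain ⟨h1, h2⟩ := hF2free p hp
      simp only [x1, if_neg h1, if_neg h2]
    have hx1F2' : x1 ∈ cyl F2 x := fun p hp => (hx1F2 p hp).trans (hyF2 p hp)
    have hFF2 : F ⊆ F2 := Finset.subset_union_left
    have hx1F3 : ∀ p ∈ F3, x1 p.1 p.2 = y p.1 p.2 := by
      intro p hp
      have hL := hF3 p hp
      have h1 : ¬ (p.1 = Sum.inr j ∧ N0 ≤ p.2) := fun h => lt_irrefl _ (hL j h.1)
      have h2 : ¬ (p.1 = Sum.inr j' ∧ a0 ≤ p.2) := fun h => lt_asymm (hL j' h.1) hjj'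
      simp only [x1, if_neg h1, if_neg h2]
    let G : Finset ((Z ⊕ K) × ℕ) := (F2 ∪ F3) ∪ ({(Sum.inr j, N0)} ∪
      (Finset.range t.length).image (fun n => (Sum.inr j', n)))
    refine ⟨G, x1, fun p hp => Finset.mem_union_left _ (Finset.mem_union_left _ (hFF2 hp)),
      fun p hp => hx1F2' p (hFF2 hp), ?_⟩
    have hG2 : F2 ⊆ G := fun p hp => Finset.mem_union_left _ (Finset.mem_union_left _ hp)
    have hG3 : F3 ⊆ G := fun p hp => Finset.mem_union_left _ (Finset.mem_union_right _ hp)
    have hyx1 : x1 ∈ cyl F3 y := hx1F3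
    refine (hF3W.mono hG3 hyx1).imp fun z hz hzW => ⟨t, hzW, ?_⟩
    -- now the combinatorics in z
    have hz2 : ∀ p ∈ F2, z p.1 p.2 = x p.1 p.2 := fun p hp =>
      (hz p (hG2 hp)).trans (hx1F2' p hp)
    have hzg : ∀ s < N0, g s = z (Sum.inr j) s := fun s hs => (hz2 _ (hF2j s hs)).symm
    have hstz : st (z (Sum.inr j)) N0 = a0 := (st_congr hzg).symm
    have hzN0 : z (Sum.inr j) N0 = Nat.pair t.length e0 := by
      have h1 : (Sum.inr j, N0) ∈ G := Finset.mem_union_right _
        (Finset.mem_union_left _ (Finset.mem_singleton_self _))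
      have h2 := hz _ h1
      rw [h2]
      exact if_pos ⟨rfl, le_rfl⟩
    have hlen : s0.length = a0 := by simp [s0]
    intro m hm
    by_cases hma : m < a0
    · have h1 : m ∈ AA (z (Sum.inr j)) (z (Sum.inr j')) ↔ m ∈ AA g (x (Sum.inr j')) :=
        mem_AA_congr hzg hma (hz2 _ (hF2j' m hma)).symm
      rw [h1]
      obtain ⟨r, hr⟩ := hst
      have h2 : m < s0.length := by rw [hlen]; exact hma
      have h3 : t[m] = s0[m] := by
        subst hr
        exact List.getElem_append_left h2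
      rw [h3]
      simp [s0]
    · have hma' : a0 ≤ m := not_lt.1 hma
      have hidx : idx (z (Sum.inr j)) m = N0 := by
        refine idx_eq (by rw [hstz]; exact hma') ?_
        rw [st_succ, hstz]
        unfold len
        rw [hzN0]
        simp only [Nat.unpair_pair]
        omega
      have hD : Dset (z (Sum.inr j)) N0 = ∅ := by
        unfold Dset
        rw [hzN0]
        simp [Nat.unpair_pair, he0]
      have hzb : z (Sum.inr j') m = if t[m] = true then 0 else 1 := by
        have h1 : (Sum.inr j', m) ∈ G := Finset.mem_union_right _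
          (Finset.mem_union_right _ (Finset.mem_image.2 ⟨m, Finset.mem_range.2 hm, rfl⟩))
        have h2 := hz _ h1
        rw [h2]
        have h3 : ¬ ((Sum.inr j' : Z ⊕ K) = Sum.inr j ∧ N0 ≤ m) := fun h =>
          hjj'.ne' (Sum.inr_injective h.1)
        exact (if_neg h3).trans ((if_pos ⟨rfl, hma'⟩).trans (dif_pos hm))
      simp only [AA, mem_ofPred_eq]
      rw [hidx, hD, hzb]
      by_cases htm : t[m] = true
      · simp [htm]
      · simp [htm]
  have hkey : Frc fun x : Coh (Z ⊕ K) => ∀ k, ∃ t, (k, t) ∈ W x ∧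
      Init t (AA (x (Sum.inr j)) (x (Sum.inr j'))) := eventually_countable_forall.2 key
  filter_upwards [hkey] with x hx
  exact ⟨mem_JN_AA hjj' x, hx⟩

end Pool.Agent.Fo65
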