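import Pool.Agent.Fo65.IdN
import Pool.Agent.Fo65.CovN
import Pool.Agent.Fo65.NonMN
import Pool.Agent.Nm65.Idx83

/-!
MP_50671f, forced form, row F7: the two index sets.
-/

namespace Pool.Agent.Fo65

open MeasureTheory Set Cardinal TopologicalSpace Filter Pool.Agent.Nm65

/-- cE as a sequence of clopen sets. -/
noncomputable def cEc (e : R) (n : ℕ) : Clopens Cantor := ⟨cE e n, (cE_omegaBar e).1 n⟩

/-- dP as a sequence of clopen sets. -/
noncomputable def dPc (g : R) (n : ℕ) : Clopens Cantor := ⟨dP g n, (dP_omegaBar g).1 n⟩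

theorem obName_cE {I : Type} (i : I) : OBName fun x : Coh I => cEc (x i) := by
  refine ⟨fun n L => ?_, Filter.Eventually.of_forall fun x => cE_omegaBar (x i)⟩
  have h1 : {x : Coh I | cEc (x i) n = L} = {x : Coh I | cEc (fun _ => x i n) n = L} := by
    ext x
    exact Iff.rfl
  rw [h1]
  exact (mb_p1 (fun v => cEc (fun _ => v) n = L) (mb_ev' (meas_coord i) n)).setOf

theorem obName_dP {I : Type} (i : I) : OBName fun x : Coh I => dPc (x i) := by
  refine ⟨fun n L => ?_, Filter.Eventually.of_forall fun x => dP_omegaBar (x i)⟩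
  have hm : Measurable fun x : Coh I => idx (x i) n := mb_idx' (meas_coord i) n
  exact (mb_p2 (fun k v => (⟨Dset (fun _ => v) k, isClopen_Dset _ k⟩ : Clopens Cantor) = L)
    hm (mb_ev (meas_coord i) hm)).setOf

/-- Measurable maps to the Cantor space have countable supports. -/
theorem support_cantor {I : Type} {y : Coh I → Cantor} (hy : Measurable y) :
    ∃ C : Set I, C.Countable ∧ DependsOn y C := by
  refine support_fun (ι := ℕ) (β := Bool) (f := y) fun n b => ?_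
  have h1 : Measurable fun x => y x n := (measurable_pi_apply n).comp hy
  exact h1 (measurableSet_singleton b)

section index

variable {Z K : Type} [LinearOrder K]

lemma bounded_strict {c : Cardinal.{0}} (hc : c.IsRegular) (S : Set c.ord.ToType) (hS : #S < c) :
    ∃ j, ∀ x ∈ S, x < j := by
  obtain ⟨j, hj⟩ := Idx83.bounded_of_lt hc S hS
  obtain ⟨k, hk⟩ := Idx83.nomax_ord hc.aleph0_le j
  exact ⟨k, fun x hx => (hj x hx).trans_lt hk⟩

/-- A small family of names has supports below one level. -/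
lemma exists_level {c : Cardinal.{0}} (hc : c.IsRegular) (hc0 : ℵ₀ < c) {Ξ : Type} (hΞ : #Ξ < c)
    (C : Ξ → Set (Z ⊕ c.ord.ToType)) (hC : ∀ ξ, (C ξ).Countable) :
    ∃ α : c.ord.ToType, ∀ ξ, C ξ ⊆ Lv Z α := by
  have hS : #(⋃ ξ, (Sum.inr ⁻¹' C ξ) : Set c.ord.ToType) < c := by
    refine (card_iUnion_lt_iff_forall_of_isRegular hc hΞ).2 fun ξ => ?_
    have h1 : (Sum.inr ⁻¹' C ξ : Set c.ord.ToType).Countable :=
      (hC ξ).preimage Sum.inr_injective
    exact (mk_le_aleph0_iff.2 h1.to_subtype).trans_lt hc0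
  obtain ⟨j, hj⟩ := bounded_strict hc _ hS
  refine ⟨j, fun ξ i hi k hk => hj k ?_⟩
  rw [mem_iUnion]
  exact ⟨ξ, by rw [mem_preimage, ← hk]; exact hi⟩

omit [LinearOrder K] in
/-- A small family of names does not involve one of the coordinates in Z. -/
lemma exists_free {Ξ : Type} (hΞ : #Ξ * ℵ₀ < #Z) (C : Ξ → Set (Z ⊕ K)) (hC : ∀ ξ, (C ξ).Countable) :
    ∃ ζ : Z, ∀ ξ, Sum.inl ζ ∉ C ξ := by
  by_contra hcon
  push Not at hcon
  have hcov : (⋃ ξ, (Sum.inl ⁻¹' C ξ) : Set Z) = Set.univ := by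
    refine eq_univ_of_forall fun ζ => ?_
    obtain ⟨ξ, hξ⟩ := hcon ζ
    exact mem_iUnion.2 ⟨ξ, hξ⟩
  have h1 : #(⋃ ξ, (Sum.inl ⁻¹' C ξ) : Set Z) ≤ #Ξ * ℵ₀ := by
    refine (mk_iUnion_le _).trans (mul_le_mul' le_rfl (ciSup_le' fun ξ => ?_))
    have h2 : (Sum.inl ⁻¹' C ξ : Set Z).Countable := (hC ξ).preimage Sum.inl_injective
    exact mk_le_aleph0_iff.2 h2.to_subtype
  rw [hcov, mk_univ] at h1
  exact absurd h1 (not_le.2 hΞ)

end index

lemma aleph_two_eq : (ℵ_ 2 : Cardinal.{0}) = Order.succ (ℵ_ 1) := by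
  rw [Cardinal.succ_aleph, one_add_one_eq_two]

lemma aleph0_lt_one : (ℵ₀ : Cardinal.{0}) < ℵ_ 1 := aleph0_lt_aleph_one

lemma one_lt_two' : (ℵ_ 1 : Cardinal.{0}) < ℵ_ 2 := by
  rw [aleph_two_eq]
  exact Order.lt_succ _

lemma reg_two : (ℵ_ 2 : Cardinal.{0}).IsRegular := by
  rw [aleph_two_eq]
  exact isRegular_succ aleph0_lt_one.le

theorem forced_q1 : ∃ I : Type, #I = ℵ_ 2 ∧ ∃ J : (Coh I → Set ℕ) → Set (Coh I),
    IdealName J ∧ NonMeagerName J ∧ CovNLe J (ℵ_ 1) ∧ AddNsGt J (ℵ_ 1) := by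
  have hr2 := reg_two
  have h02 : (ℵ₀ : Cardinal.{0}) < ℵ_ 2 := aleph0_lt_one.trans one_lt_two'
  have hZ : #((ℵ_ 1 : Cardinal.{0}).ord.ToType) = ℵ_ 1 := mk_ord_toType _
  have hK : #((ℵ_ 2 : Cardinal.{0}).ord.ToType) = ℵ_ 2 := mk_ord_toType _
  have neZ : Nonempty (ℵ_ 1 : Cardinal.{0}).ord.ToType := by
    rw [← mk_ne_zero_iff, hZ]
    exact (aleph0_pos.trans aleph0_lt_one).ne'
  have neK : Nonempty (ℵ_ 2 : Cardinal.{0}).ord.ToType := by
    rw [← mk_ne_zero_iff, hK]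
    exact (aleph0_pos.trans h02).ne'
  refine ⟨(ℵ_ 1 : Cardinal.{0}).ord.ToType ⊕ (ℵ_ 2 : Cardinal.{0}).ord.ToType, ?_,
    JN, idealName, ?_, ?_, ?_⟩
  · rw [mk_sum, lift_id, lift_id, hZ, hK]
    exact add_eq_right h02.le one_lt_two'.le
  · refine nonMeagerName fun S hS => ?_
    exact bounded_strict hr2 S ((mk_le_aleph0_iff.2 hS.to_subtype).trans_lt h02)
  · refine ⟨(ℵ_ 1 : Cardinal.{0}).ord.ToType, fun ζ x => cEc (x (Sum.inl ζ)), hZ.le,
      fun ζ => obName_cE _, fun y hy => ?_⟩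
    obtain ⟨C, hC, hd⟩ := support_cantor hy
    obtain ⟨ζ, hζ⟩ := exists_free (Ξ := Unit) (by
      rw [hZ, mk_unit, one_mul]
      exact aleph0_lt_one) (fun _ => C) (fun _ => hC)
    exact ⟨ζ, Filter.Eventually.of_forall fun x => coverN ζ hy hd (hζ ()) x⟩
  · intro Ξ c hΞ hc
    choose C hC hd using fun ξ => support_fun (hc ξ).1
    obtain ⟨α, hα⟩ := exists_level hr2 h02 (hΞ.trans_lt one_lt_two') C hC
    refine ⟨fun x => dPc (x (Sum.inr α)), obName_dP _, fun ξ y _ =>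
      Filter.Eventually.of_forall fun x hx => ?_⟩
    exact boundNC (Idx83.nomax_ord h02.le) (hc ξ) (fun a b hab => hd ξ fun i hi => hab i (hα ξ hi))
      y x hx

theorem forced_q2 : ∃ I : Type, #I = ℵ_ 2 ∧ ∃ J : (Coh I → Set ℕ) → Set (Coh I),
    IdealName J ∧ NonMeagerName J ∧ CofNsLe J (ℵ_ 1) ∧ NonNGt J (ℵ_ 1) := by
  have hr1 : (ℵ_ 1 : Cardinal.{0}).IsRegular := isRegular_aleph_one
  have h02 : (ℵ₀ : Cardinal.{0}) < ℵ_ 2 := aleph0_lt_one.trans one_lt_two'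
  have hZ : #((ℵ_ 2 : Cardinal.{0}).ord.ToType) = ℵ_ 2 := mk_ord_toType _
  have hK : #((ℵ_ 1 : Cardinal.{0}).ord.ToType) = ℵ_ 1 := mk_ord_toType _
  have neZ : Nonempty (ℵ_ 2 : Cardinal.{0}).ord.ToType := by
    rw [← mk_ne_zero_iff, hZ]
    exact (aleph0_pos.trans h02).ne'
  have neK : Nonempty (ℵ_ 1 : Cardinal.{0}).ord.ToType := by
    rw [← mk_ne_zero_iff, hK]
    exact (aleph0_pos.trans aleph0_lt_one).ne'
  refine ⟨(ℵ_ 2 : Cardinal.{0}).ord.ToType ⊕ (ℵ_ 1 : Cardinal.{0}).ord.ToType, ?_,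
    JN, idealName, ?_, ?_, ?_⟩
  · rw [mk_sum, lift_id, lift_id, hZ, hK]
    exact add_eq_left h02.le one_lt_two'.le
  · refine nonMeagerName fun S hS => ?_
    exact bounded_strict hr1 S ((mk_le_aleph0_iff.2 hS.to_subtype).trans_lt aleph0_lt_one)
  · refine ⟨(ℵ_ 1 : Cardinal.{0}).ord.ToType, fun α x => dPc (x (Sum.inr α)), hK.le,
      fun α => obName_dP _, fun c hc => ?_⟩
    obtain ⟨C, hC, hd⟩ := support_fun hc.1
    obtain ⟨α, hα⟩ := exists_level hr1 aleph0_lt_one (Ξ := Unit) (by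
      rw [mk_unit]
      exact one_lt_aleph0.trans aleph0_lt_one) (fun _ => C) (fun _ => hC)
    refine ⟨α, fun y _ => Filter.Eventually.of_forall fun x hx => ?_⟩
    exact boundNC (Idx83.nomax_ord aleph0_lt_one.le) hc
      (fun a b hab => hd fun i hi => hab i (hα () hi)) y x hx
  · intro Ξ y hΞ hy
    choose C hC hd using fun ξ => support_cantor (hy ξ)
    obtain ⟨ζ, hζ⟩ := exists_free (lt_of_le_of_lt (by
        refine (mul_le_mul' hΞ le_rfl).trans ?_
        exact (mul_aleph0_eq (aleph0_le_aleph 1)).le) (one_lt_two'.trans_eq hZ.symm)) C hC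
    exact ⟨fun x => cEc (x (Sum.inl ζ)), obName_cE _, fun ξ =>
      Filter.Eventually.of_forall fun x => coverN ζ (hy ξ) (hd ξ) (hζ ξ) x⟩

end Pool.Agent.Fo65
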