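import Pool.Agent.Fo65.Base

/-!
MP_50671f, forced form: transport of all notions along a bijection of the index sets.
-/

namespace Pool.Agent.Fo65

open MeasureTheory Set Cardinal TopologicalSpace Filter Pool.Agent.Nm65

variable {I I' : Type}

/-- Reindexing of families. -/
def reix (σ : I ≃ I') (x : Coh I') : Coh I := fun i => x (σ i)

@[simp] lemma reix_symm (σ : I ≃ I') (x : Coh I) : reix σ (reix σ.symm x) = x := by
  funext i; simp [reix]

@[simp] lemma reix_symm' (σ : I ≃ I') (x : Coh I') : reix σ.symm (reix σ x) = x := by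
  funext i; simp [reix]

/-- Reindexing is a homeomorphism. -/
def hreix (σ : I ≃ I') : Coh I' ≃ₜ Coh I where
  toFun := reix σ
  invFun := reix σ.symm
  left_inv := fun x => reix_symm' σ x
  right_inv := fun x => reix_symm σ x
  continuous_toFun := continuous_pi fun i => continuous_apply (σ i)
  continuous_invFun := continuous_pi fun i => continuous_apply (σ.symm i)

lemma measurable_reix (σ : I ≃ I') : Measurable (reix σ) :=
  measurable_pi_iff.2 fun i => measurable_pi_apply (σ i)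

lemma Frc.reix (σ : I ≃ I') {φ : Coh I → Prop} (h : Frc φ) :
    Frc fun x : Coh I' => φ (reix σ x) :=
  (tendsto_residual_of_isOpenMap (hreix σ).continuous (hreix σ).isOpenMap).eventually h

/-- The transported ideal name. -/
def trJ (σ : I ≃ I') (J : (Coh I → Set ℕ) → Set (Coh I)) (A : Coh I' → Set ℕ) : Set (Coh I') :=
  {x | reix σ x ∈ J fun z => A (reix σ.symm z)}

lemma mem_trJ (σ : I ≃ I') (J : (Coh I → Set ℕ) → Set (Coh I)) (A : Coh I' → Set ℕ) (x : Coh I') :
    x ∈ trJ σ J A ↔ reix σ x ∈ J fun z => A (reix σ.symm z) := Iff.rfl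

theorem IdealName.tr (σ : I ≃ I') {J : (Coh I → Set ℕ) → Set (Coh I)} (hJ : IdealName J) :
    IdealName (trJ σ J) where
  isOpen A := (hJ.isOpen _).preimage (hreix σ).continuous
  sub A B hA hB := by
    have h := (hJ.sub _ _ (hA.comp (measurable_reix σ.symm)) (hB.comp (measurable_reix σ.symm))).reix σ
    refine h.mono fun x hx => ?_
    simpa [mem_trJ, Function.comp_def] using hx
  union A B hA hB := by
    have h := (hJ.union _ _ (hA.comp (measurable_reix σ.symm)) (hB.comp (measurable_reix σ.symm))).reix σ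
    refine h.mono fun x hx => ?_
    simpa [mem_trJ, Function.comp_def] using hx
  fin A hA := by
    have h := (hJ.fin _ (hA.comp (measurable_reix σ.symm))).reix σ
    refine h.mono fun x hx => ?_
    simpa [mem_trJ, Function.comp_def] using hx
  proper := by
    have h := hJ.proper.reix σ
    refine h.mono fun x hx => ?_
    simpa [mem_trJ, Function.comp_def] using hx

theorem NonMeagerName.tr (σ : I ≃ I') {J : (Coh I → Set ℕ) → Set (Coh I)}
    (hJ : NonMeagerName J) : NonMeagerName (trJ σ J) := by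
  intro W hW hd
  obtain ⟨A, hA, h⟩ := hJ (fun x => W (reix σ.symm x)) (hW.comp (measurable_reix σ.symm))
    (hd.reix σ.symm)
  refine ⟨fun x => A (reix σ x), hA.comp (measurable_reix σ), ?_⟩
  have h' := h.reix σ
  refine h'.mono fun x hx => ?_
  simpa [mem_trJ, Function.comp_def] using hx

theorem OBName.tr (σ : I ≃ I') {c : Coh I → ℕ → Clopens Cantor} (hc : OBName c) :
    OBName fun x : Coh I' => c (reix σ x) :=
  ⟨fun n K => measurable_reix σ (hc.1 n K), hc.2.reix σ⟩

theorem CovNLe.tr (σ : I ≃ I') {J : (Coh I → Set ℕ) → Set (Coh I)} {κ : Cardinal}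
    (h : CovNLe J κ) : CovNLe (trJ σ J) κ := by
  obtain ⟨Ξ, c, hΞ, hc, hy⟩ := h
  refine ⟨Ξ, fun ξ x => c ξ (reix σ x), hΞ, fun ξ => (hc ξ).tr σ, fun y hym => ?_⟩
  obtain ⟨ξ, hξ⟩ := hy (fun x => y (reix σ.symm x)) (hym.comp (measurable_reix σ.symm))
  refine ⟨ξ, (hξ.reix σ).mono fun x hx => ?_⟩
  simpa [mem_trJ, Function.comp_def] using hx

theorem AddNsGt.tr (σ : I ≃ I') {J : (Coh I → Set ℕ) → Set (Coh I)} {κ : Cardinal}
    (h : AddNsGt J κ) : AddNsGt (trJ σ J) κ := by
  intro Ξ c hΞ hc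
  obtain ⟨d, hd, hy⟩ := h Ξ (fun ξ x => c ξ (reix σ.symm x)) hΞ (fun ξ => (hc ξ).tr σ.symm)
  refine ⟨fun x => d (reix σ x), hd.tr σ, fun ξ y hym => ?_⟩
  have h1 := (hy ξ (fun x => y (reix σ.symm x)) (hym.comp (measurable_reix σ.symm))).reix σ
  refine h1.mono fun x hx => ?_
  simpa [mem_trJ, Function.comp_def] using hx

theorem NonNGt.tr (σ : I ≃ I') {J : (Coh I → Set ℕ) → Set (Coh I)} {κ : Cardinal}
    (h : NonNGt J κ) : NonNGt (trJ σ J) κ := by
  intro Ξ y hΞ hy
  obtain ⟨c, hc, h1⟩ := h Ξ (fun ξ x => y ξ (reix σ.symm x)) hΞ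
    (fun ξ => (hy ξ).comp (measurable_reix σ.symm))
  refine ⟨fun x => c (reix σ x), hc.tr σ, fun ξ => ((h1 ξ).reix σ).mono fun x hx => ?_⟩
  simpa [mem_trJ, Function.comp_def] using hx

theorem CofNsLe.tr (σ : I ≃ I') {J : (Coh I → Set ℕ) → Set (Coh I)} {κ : Cardinal}
    (h : CofNsLe J κ) : CofNsLe (trJ σ J) κ := by
  obtain ⟨Ξ, d, hΞ, hd, hc⟩ := h
  refine ⟨Ξ, fun ξ x => d ξ (reix σ x), hΞ, fun ξ => (hd ξ).tr σ, fun c hcm => ?_⟩
  obtain ⟨ξ, hξ⟩ := hc (fun x => c (reix σ.symm x)) (hcm.tr σ.symm)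
  refine ⟨ξ, fun y hym => ?_⟩
  have h1 := (hξ (fun x => y (reix σ.symm x)) (hym.comp (measurable_reix σ.symm))).reix σ
  refine h1.mono fun x hx => ?_
  simpa [mem_trJ, Function.comp_def] using hx

end Pool.Agent.Fo65
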