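import Pool.Agent.Fo65.Fin
import Pool.Agent.Fo65.Tr

/-!
MP_50671f, forced form: every index set with at least aleph_2 elements.
-/

namespace Pool.Agent.Fo65

open MeasureTheory Set Cardinal TopologicalSpace Filter Pool.Agent.Nm65

/-- The index set Z ⊕ omega_2, with Z uncountable. -/
theorem forced_q1_sum {Z : Type} (hZ : ℵ_ 1 ≤ #Z) :
    ∃ J : (Coh (Z ⊕ (ℵ_ 2 : Cardinal.{0}).ord.ToType) → Set ℕ) →
      Set (Coh (Z ⊕ (ℵ_ 2 : Cardinal.{0}).ord.ToType)),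
    IdealName J ∧ NonMeagerName J ∧ CovNLe J (ℵ_ 1) ∧ AddNsGt J (ℵ_ 1) := by
  have hr2 := reg_two
  have h02 : (ℵ₀ : Cardinal.{0}) < ℵ_ 2 := aleph0_lt_one.trans one_lt_two'
  have hO : #((ℵ_ 1 : Cardinal.{0}).ord.ToType) = ℵ_ 1 := mk_ord_toType _
  have hK : #((ℵ_ 2 : Cardinal.{0}).ord.ToType) = ℵ_ 2 := mk_ord_toType _
  obtain ⟨f⟩ : Nonempty ((ℵ_ 1 : Cardinal.{0}).ord.ToType ↪ Z) := by
    rw [← Cardinal.le_def, hO]; exact hZ
  have neO : Nonempty (ℵ_ 1 : Cardinal.{0}).ord.ToType := by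
    rw [← mk_ne_zero_iff, hO]
    exact (aleph0_pos.trans aleph0_lt_one).ne'
  have neZ : Nonempty Z := neO.map f
  have neK : Nonempty (ℵ_ 2 : Cardinal.{0}).ord.ToType := by
    rw [← mk_ne_zero_iff, hK]
    exact (aleph0_pos.trans h02).ne'
  refine ⟨JN, idealName, ?_, ?_, ?_⟩
  · refine nonMeagerName fun S hS => ?_
    exact bounded_strict hr2 S ((mk_le_aleph0_iff.2 hS.to_subtype).trans_lt h02)
  · refine ⟨(ℵ_ 1 : Cardinal.{0}).ord.ToType, fun ζ x => cEc (x (Sum.inl (f ζ))), hO.le,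
      fun ζ => obName_cE _, fun y hy => ?_⟩
    obtain ⟨C, hC, hd⟩ := support_cantor hy
    have h1 : ∃ ζ, Sum.inl (f ζ) ∉ C := by
      by_contra hcon
      push Not at hcon
      have h2 : (Set.univ : Set (ℵ_ 1 : Cardinal.{0}).ord.ToType).Countable := by
        have h3 : ((fun ζ => (Sum.inl (f ζ) : Z ⊕ (ℵ_ 2 : Cardinal.{0}).ord.ToType)) ⁻¹' C).Countable :=
          hC.preimage (Sum.inl_injective.comp f.injective)
        refine h3.mono fun ζ _ => hcon ζ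
      have h4 := mk_le_aleph0_iff.2 h2.to_subtype
      rw [mk_univ, hO] at h4
      exact absurd h4 (not_le.2 aleph0_lt_one)
    obtain ⟨ζ, hζ⟩ := h1
    exact ⟨ζ, Filter.Eventually.of_forall fun x => coverN (f ζ) hy hd hζ x⟩
  · intro Ξ c hΞ hc
    choose C hC hd using fun ξ => support_fun (hc ξ).1
    obtain ⟨α, hα⟩ := exists_level hr2 h02 (hΞ.trans_lt one_lt_two') C hC
    refine ⟨fun x => dPc (x (Sum.inr α)), obName_dP _, fun ξ y _ =>
      Filter.Eventually.of_forall fun x hx => ?_⟩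
    exact boundNC (Idx83.nomax_ord h02.le) (hc ξ) (fun a b hab => hd ξ fun i hi => hab i (hα ξ hi))
      y x hx

/-- The index set Z ⊕ omega_1, with Z of cardinality at least aleph_2. -/
theorem forced_q2_sum {Z : Type} (hZ : ℵ_ 2 ≤ #Z) :
    ∃ J : (Coh (Z ⊕ (ℵ_ 1 : Cardinal.{0}).ord.ToType) → Set ℕ) →
      Set (Coh (Z ⊕ (ℵ_ 1 : Cardinal.{0}).ord.ToType)),
    IdealName J ∧ NonMeagerName J ∧ CofNsLe J (ℵ_ 1) ∧ NonNGt J (ℵ_ 1) := by
  have hr1 : (ℵ_ 1 : Cardinal.{0}).IsRegular := isRegular_aleph_one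
  have hK : #((ℵ_ 1 : Cardinal.{0}).ord.ToType) = ℵ_ 1 := mk_ord_toType _
  have h02 : (ℵ₀ : Cardinal.{0}) < ℵ_ 2 := aleph0_lt_one.trans one_lt_two'
  have neZ : Nonempty Z := by
    rw [← mk_ne_zero_iff]
    exact ((aleph0_pos.trans h02).trans_le hZ).ne'
  have neK : Nonempty (ℵ_ 1 : Cardinal.{0}).ord.ToType := by
    rw [← mk_ne_zero_iff, hK]
    exact (aleph0_pos.trans aleph0_lt_one).ne'
  refine ⟨JN, idealName, ?_, ?_, ?_⟩
  · refine nonMeagerName fun S hS => ?_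
    exact bounded_strict hr1 S ((mk_le_aleph0_iff.2 hS.to_subtype).trans_lt aleph0_lt_one)
  · refine ⟨(ℵ_ 1 : Cardinal.{0}).ord.ToType, fun α x => dPc (x (Sum.inr α)), hK.le,
      fun α => obName_dP _, fun c hc => ?_⟩
    obtain ⟨C, hC, hd⟩ := support_fun hc.1
    obtain ⟨α, hα⟩ := exists_level hr1 aleph0_lt_one (Ξ := Unit) (by
      rw [mk_unit]
      exact one_lt_aleph0.trans aleph0_lt_one) (fun _ => C) (fun _ => hC)
    refine ⟨α, fun y _ => Filter.Eventually.of_forall fun x hx => ?_⟩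
    exact boundNC (Idx83.nomax_ord aleph0_lt_one.le) hc
      (fun a b hab => hd fun i hi => hab i (hα () hi)) y x hx
  · intro Ξ y hΞ hy
    choose C hC hd using fun ξ => support_cantor (hy ξ)
    obtain ⟨ζ, hζ⟩ := exists_free (lt_of_le_of_lt (by
        refine (mul_le_mul' hΞ le_rfl).trans ?_
        exact (mul_aleph0_eq (aleph0_le_aleph 1)).le) (one_lt_two'.trans_le hZ)) C hC
    exact ⟨fun x => cEc (x (Sum.inl ζ)), obName_cE _, fun ξ =>
      Filter.Eventually.of_forall fun x => coverN ζ (hy ξ) (hd ξ) (hζ ξ) x⟩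

/-- Q1 is forced by adding a family of Cohen reals indexed by any set of size at least aleph_2. -/
theorem forced_q1_all {I : Type} (hI : ℵ_ 2 ≤ #I) : ∃ J : (Coh I → Set ℕ) → Set (Coh I),
    IdealName J ∧ NonMeagerName J ∧ CovNLe J (ℵ_ 1) ∧ AddNsGt J (ℵ_ 1) := by
  have h02 : (ℵ₀ : Cardinal.{0}) < ℵ_ 2 := aleph0_lt_one.trans one_lt_two'
  obtain ⟨J, h1, h2, h3, h4⟩ := forced_q1_sum (one_lt_two'.le.trans hI)
  have hcard : #(I ⊕ (ℵ_ 2 : Cardinal.{0}).ord.ToType) = #I := by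
    rw [mk_sum, lift_id, lift_id, mk_ord_toType]
    exact add_eq_left (h02.le.trans hI) hI
  obtain ⟨σ⟩ := Cardinal.eq.1 hcard
  exact ⟨trJ σ J, h1.tr σ, h2.tr σ, h3.tr σ, h4.tr σ⟩

/-- Q2 is forced by adding a family of Cohen reals indexed by any set of size at least aleph_2. -/
theorem forced_q2_all {I : Type} (hI : ℵ_ 2 ≤ #I) : ∃ J : (Coh I → Set ℕ) → Set (Coh I),
    IdealName J ∧ NonMeagerName J ∧ CofNsLe J (ℵ_ 1) ∧ NonNGt J (ℵ_ 1) := by
  have h02 : (ℵ₀ : Cardinal.{0}) < ℵ_ 2 := aleph0_lt_one.trans one_lt_two'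
  obtain ⟨J, h1, h2, h3, h4⟩ := forced_q2_sum hI
  have hcard : #(I ⊕ (ℵ_ 1 : Cardinal.{0}).ord.ToType) = #I := by
    rw [mk_sum, lift_id, lift_id, mk_ord_toType]
    exact add_eq_left (h02.le.trans hI) (one_lt_two'.le.trans hI)
  obtain ⟨σ⟩ := Cardinal.eq.1 hcard
  exact ⟨trJ σ J, h1.tr σ, h2.tr σ, h3.tr σ, h4.tr σ⟩

end Pool.Agent.Fo65
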