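import Pool.Agent.Fo65.Dir
import Pool.Agent.Fo65.SS

/-!
MP_50671f, forced form: the family `JN` is the name of an ideal, and the bound for `N*_J`.
-/

namespace Pool.Agent.Fo65

open MeasureTheory Set Cardinal TopologicalSpace Filter Pool.Agent.Nm65

variable {Z K : Type} [LinearOrder K]

lemma mb_mem {I : Type} {A : Coh I → Set ℕ} (hA : Measurable A) (n : ℕ) :
    Measurable fun x => n ∈ A x := measurable_set_iff.1 hA n

lemma isOpen_JN (A : Coh (Z ⊕ K) → Set ℕ) : IsOpen (JN A) := by
  have h : JN A = ⋃ (i : K) (a : Coh (Z ⊕ K) → R) (_ : BsN i a),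
      {x | ∃ F, Fc F x fun y => {n | n ∈ St (a y) ∧ n ∈ A y}.Finite} := by
    ext x
    simp only [JN, mem_ofPred_eq, mem_iUnion, exists_prop]
  rw [h]
  exact isOpen_iUnion fun i => isOpen_iUnion fun a => isOpen_iUnion fun _ => isOpen_Fc _

theorem idealName [WellFoundedLT K] [Nonempty K] [Nonempty Z] :
    IdealName (JN (Z := Z) (K := K)) where
  isOpen := isOpen_JN
  sub := by
    intro A B hA hB
    have hm : MeasurableSet {x | B x ⊆ A x} := by
      apply Measurable.setOf
      show Measurable fun x => ∀ n, n ∈ B x → n ∈ A x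
      exact Measurable.forall fun n => (mb_mem hB n).imp (mb_mem hA n)
    filter_upwards [truth' hm] with x hx hsub hJ
    obtain ⟨i, a, ha, F, hF⟩ := hJ
    obtain ⟨F', hF'⟩ := hx hsub
    classical
    refine ⟨i, a, ha, F ∪ F', ?_⟩
    have h1 := (hF.mono Finset.subset_union_left (mem_cyl_self F x)).and
      (hF'.mono Finset.subset_union_right (mem_cyl_self F' x))
    refine h1.imp fun y _ h2 => ?_
    exact h2.1.subset fun n hn => ⟨hn.1, h2.2 hn.2⟩
  union := by
    intro A B _ _
    refine Eventually.of_forall fun x hA hB => ?_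
    obtain ⟨i, a, ha, F, hF⟩ := hA
    obtain ⟨i', a', ha', F', hF'⟩ := hB
    obtain ⟨c, hc, hc2⟩ := directedN (max i i') a a' (ha.mono (le_max_left _ _))
      (ha'.mono (le_max_right _ _))
    classical
    refine ⟨max i i', c, hc, F ∪ F', ?_⟩
    have h1 := (hF.mono Finset.subset_union_left (mem_cyl_self F x)).and
      (hF'.mono Finset.subset_union_right (mem_cyl_self F' x))
    refine h1.imp fun y _ h2 => ?_
    refine (h2.1.union h2.2).subset ?_
    rintro n ⟨hn, hn' | hn'⟩
    · exact Or.inl ⟨(hc2 y).1 hn, hn'⟩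
    · exact Or.inr ⟨(hc2 y).2 hn, hn'⟩
  fin := by
    intro A hA
    have hm : MeasurableSet {x | (A x).Finite} := by
      have h : {x | (A x).Finite} = {x | ∃ N : ℕ, ∀ n, N ≤ n → n ∉ A x} := by
        ext x
        simp only [mem_ofPred_eq]
        constructor
        · intro h
          obtain ⟨N, hN⟩ := h.bddAbove
          exact ⟨N + 1, fun n hn hnA => by have := hN hnA; omega⟩
        · rintro ⟨N, hN⟩
          refine (Set.finite_lt_nat N).subset fun n hn => ?_
          by_contra hcon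
          exact hN n (not_lt.1 hcon) hn
      rw [h]
      apply Measurable.setOf
      exact Measurable.exists fun N => Measurable.forall fun n =>
        measurable_const.imp (mb_mem hA n).not
    filter_upwards [truth' hm] with x hx hfin
    obtain ⟨F, hF⟩ := hx hfin
    obtain ⟨i⟩ := (inferInstance : Nonempty K)
    refine ⟨i, _, BsN.one i, F, hF.imp fun y _ h2 => ?_⟩
    exact h2.subset fun n hn => hn.2
  proper := by
    refine Eventually.of_forall fun x hJ => ?_
    obtain ⟨i, a, ha, F, hF⟩ := hJ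
    obtain ⟨y, _, h1, h2⟩ := hF.exists ha.infinite
    exact h2 (h1.subset fun n hn => ⟨hn, mem_univ n⟩)

/-- The bound for `N*_J`, for names of codes. -/
theorem boundN (hmax : ∀ i : K, ∃ j, i < j) {α : K} {c : Coh (Z ⊕ K) → R}
    (hc : Measurable c) (hs : DependsOn c (Lv Z α)) (hnull : Frc fun x => Null (c x))
    (y : Coh (Z ⊕ K) → Cantor) (x : Coh (Z ⊕ K))
    (hx : x ∈ JN fun z => {n | y z ∉ (cl (c z n) : Set Cantor)}) :
    x ∈ JN fun z => {n | y z ∉ dP (z (Sum.inr α)) n} := by
  obtain ⟨i, a, ha, F, hF⟩ := hx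
  obtain ⟨k, hk⟩ := hmax (max i α)
  obtain ⟨a', ha', hst⟩ := starN ha α c hc hs hnull k ((le_max_left _ _).trans hk.le)
    (lt_of_le_of_lt (le_max_right _ _) hk)
  refine ⟨k, a', ha', F, hF.imp fun z _ hfin => ?_⟩
  obtain ⟨N, hN⟩ := hfin.bddAbove
  refine (Set.finite_lt_nat (st (z (Sum.inr α)) (idx (z (Sum.inr α)) N + 1))).subset ?_
  rintro n ⟨hn, hyn⟩
  by_contra hcon
  have hcon' : st (z (Sum.inr α)) (idx (z (Sum.inr α)) N + 1) ≤ n := not_lt.1 hcon
  obtain ⟨hsub, hst2⟩ := hst z
  obtain ⟨n', hn', h1, h2⟩ := hst2 n hn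
  have h3 : y z ∉ (cl (c z n') : Set Cantor) := fun hcn => hyn (h2 hcn)
  have h4 : n' ≤ N := hN ⟨hn', h3⟩
  have h5 := idx_tendsto (z (Sum.inr α)) _ n hcon'
  rw [← h1] at h5
  have h6 := idx_mono (z (Sum.inr α)) h4
  omega

/-- A right inverse of `cl`. -/
noncomputable def cd (U : Clopens Cantor) : ℕ := (cl_surj U).choose

lemma cl_cd (U : Clopens Cantor) : cl (cd U) = U := (cl_surj U).choose_spec

/-- The bound for `N*_J`, for names of sequences of clopen sets. -/
theorem boundNC (hmax : ∀ i : K, ∃ j, i < j) {α : K} {c : Coh (Z ⊕ K) → ℕ → Clopens Cantor}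
    (hc : OBName c) (hs : DependsOn c (Lv Z α)) (y : Coh (Z ⊕ K) → Cantor) (x : Coh (Z ⊕ K))
    (hx : x ∈ JN fun z => {n | y z ∉ c z n}) :
    x ∈ JN fun z => {n | y z ∉ dP (z (Sum.inr α)) n} := by
  have hcm : Measurable fun (z : Coh (Z ⊕ K)) (n : ℕ) => cd (c z n) := by
    rw [measurable_pi_iff]
    intro n
    refine measurable_to_countable' fun v => ?_
    have h : (fun z => cd (c z n)) ⁻¹' {v} = ⋃ (U : Clopens Cantor) (_ : cd U = v), {z | c z n = U} := by
      ext z
      simp
    rw [h]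
    exact MeasurableSet.iUnion fun U => MeasurableSet.iUnion fun _ => hc.1 n U
  have hcd : DependsOn (fun (z : Coh (Z ⊕ K)) (n : ℕ) => cd (c z n)) (Lv Z α) := by
    intro z z' h
    have := hs h
    dsimp only
    rw [this]
  have hnull : Frc fun z => Null fun n => cd (c z n) := by
    filter_upwards [hc.2] with z hz
    intro k
    obtain ⟨m, hm⟩ := hz.null k
    refine ⟨m, fun n hn => ?_⟩
    rw [cl_cd]
    exact hm n hn
  refine boundN hmax hcm hcd hnull y x ?_
  simp only [cl_cd]
  exact hx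

end Pool.Agent.Fo65
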