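import Pool.Agent.Fo65.Fdefs

/-!
MP_50671f, forced form: a point outside a limsup set, chosen in a Borel way from the codes.
-/

namespace Pool.Agent.Fo65

open MeasureTheory Set TopologicalSpace Filter Pool.Agent.Nm65

namespace Pick

/-- Basic clopen sets of the Cantor space. -/
def cy (s : List Bool) : Set Cantor := {x | ∀ i (h : i < s.length), x i = s[i]}

lemma isClopen_cy (s : List Bool) : IsClopen (cy s) := by
  have h : cy s = ⋂ i : Fin s.length, {x : Cantor | x i = s[i]} := by
    ext x
    simp only [cy, mem_ofPred_eq, mem_iInter]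
    exact ⟨fun h i => h i i.2, fun h i hi => h ⟨i, hi⟩⟩
  rw [h]
  exact isClopen_iInter_of_finite fun i =>
    (isClopen_discrete {s[i]}).preimage (continuous_apply (i : ℕ))

lemma cy_nil : cy [] = univ := by
  ext x
  simp [cy]

lemma mem_cy_snoc (s : List Bool) (b : Bool) (x : Cantor) :
    x ∈ cy (s ++ [b]) ↔ x ∈ cy s ∧ x s.length = b := by
  constructor
  · intro h
    refine ⟨fun i hi => ?_, ?_⟩
    · have h1 := h i (by simp; omega)
      rw [h1, List.getElem_append_left hi]
    · have h1 := h s.length (by simp)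
      rw [h1]
      simp
  · rintro ⟨h1, h2⟩ i hi
    rcases Nat.lt_or_ge i s.length with h | h
    · rw [List.getElem_append_left h]
      exact h1 i h
    · have h3 : i = s.length := by
        simp at hi
        omega
      subst h3
      simpa using h2

/-- The union of the sets of the sequence from m on. -/
def U (e : R) (m : ℕ) : Set Cantor := ⋃ n, ⋃ _ : m ≤ n, (cl (e n) : Set Cantor)

/-- The finite unions. -/
def V (e : R) (m l : ℕ) : Set Cantor := ⋃ n, ⋃ _ : m ≤ n ∧ n < l, (cl (e n) : Set Cantor)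

lemma isOpen_U (e : R) (m : ℕ) : IsOpen (U e m) :=
  isOpen_iUnion fun n => isOpen_iUnion fun _ => (cl (e n)).isClopen.isOpen

lemma isOpen_V (e : R) (m l : ℕ) : IsOpen (V e m l) :=
  isOpen_iUnion fun n => isOpen_iUnion fun _ => (cl (e n)).isClopen.isOpen

lemma cy_sub_iff (e : R) (m : ℕ) (s : List Bool) : cy s ⊆ U e m ↔ ∃ l, cy s ⊆ V e m l := by
  constructor
  · intro h
    have hK : IsCompact (cy s) := (isClopen_cy s).isClosed.isCompact
    have hcov : cy s ⊆ ⋃ l, V e m l := by
      intro x hx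
      have h1 := h hx
      simp only [U, V, mem_iUnion] at h1 ⊢
      obtain ⟨n, hn, hxn⟩ := h1
      exact ⟨n + 1, n, ⟨hn, Nat.lt_succ_self n⟩, hxn⟩
    have hdir : Directed (· ⊆ ·) (V e m) := by
      intro a b
      refine ⟨max a b, ?_, ?_⟩
      · intro x hx
        simp only [V, mem_iUnion] at hx ⊢
        obtain ⟨n, hn, hxn⟩ := hx
        exact ⟨n, ⟨hn.1, lt_of_lt_of_le hn.2 (le_max_left _ _)⟩, hxn⟩
      · intro x hx
        simp only [V, mem_iUnion] at hx ⊢
        obtain ⟨n, hn, hxn⟩ := hx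
        exact ⟨n, ⟨hn.1, lt_of_lt_of_le hn.2 (le_max_right _ _)⟩, hxn⟩
    obtain ⟨l, hl⟩ := hK.elim_directed_cover (V e m) (fun l => isOpen_V e m l) hcov hdir
    exact ⟨l, hl⟩
  · rintro ⟨l, hl⟩ x hx
    have h1 := hl hx
    simp only [U, V, mem_iUnion] at h1 ⊢
    obtain ⟨n, hn, hxn⟩ := h1
    exact ⟨n, hn.1, hxn⟩

lemma mb_V (m l : ℕ) (s : List Bool) : MeasurableSet {e : R | cy s ⊆ V e m l} := by
  have h1 : Measurable fun (e : R) (n : Fin l) => e n :=
    measurable_pi_lambda _ fun n => measurable_pi_apply (n : ℕ)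
  have h2 : {e : R | cy s ⊆ V e m l} = (fun (e : R) (n : Fin l) => e n) ⁻¹'
      {f : Fin l → ℕ | cy s ⊆ ⋃ n : Fin l, ⋃ _ : m ≤ (n : ℕ), (cl (f n) : Set Cantor)} := by
    ext e
    simp only [mem_preimage, mem_ofPred_eq]
    have h3 : V e m l = ⋃ n : Fin l, ⋃ _ : m ≤ (n : ℕ), (cl (e n) : Set Cantor) := by
      ext x
      simp only [V, mem_iUnion]
      constructor
      · rintro ⟨n, hn, hxn⟩
        exact ⟨⟨n, hn.2⟩, hn.1, hxn⟩
      · rintro ⟨n, hn, hxn⟩
        exact ⟨n, ⟨hn, n.2⟩, hxn⟩
    rw [h3]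
  rw [h2]
  exact h1 (MeasurableSet.of_discrete)

lemma mb_U (m : ℕ) (s : List Bool) : MeasurableSet {e : R | cy s ⊆ U e m} := by
  have h : {e : R | cy s ⊆ U e m} = ⋃ l, {e : R | cy s ⊆ V e m l} := by
    ext e
    simp only [mem_ofPred_eq, mem_iUnion]
    exact cy_sub_iff e m s
  rw [h]
  exact MeasurableSet.iUnion fun l => mb_V m l s

open Classical in
/-- The first m for which the union is not everything. -/
noncomputable def mm (e : R) : ℕ :=
  if h : ∃ m, ¬ cy [] ⊆ U e m then Nat.find h else 0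

lemma mb_mm : Measurable mm := by
  classical
  unfold mm
  refine mb_find (p := fun (e : R) m => ¬ cy [] ⊆ U e m) (fun n => ?_)
  exact measurableSet_setOfPred.1 (mb_U n []).compl

lemma mb_UU (s : List Bool) : MeasurableSet {e : R | cy s ⊆ U e (mm e)} := by
  have h : {e : R | cy s ⊆ U e (mm e)} = ⋃ m : ℕ, (mm ⁻¹' {m} ∩ {e : R | cy s ⊆ U e m}) := by
    ext e
    simp
  rw [h]
  exact MeasurableSet.iUnion fun m => (mb_mm (measurableSet_singleton m)).inter (mb_U m s)

open Classical in
/-- The next bit. -/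
noncomputable def nb (e : R) (s : List Bool) : Bool :=
  if cy (s ++ [false]) ⊆ U e (mm e) then true else false

/-- The initial segments of the chosen point. -/
noncomputable def sq (e : R) : ℕ → List Bool
  | 0 => []
  | i + 1 => sq e i ++ [nb e (sq e i)]

/-- The chosen point. -/
noncomputable def Y (e : R) : Cantor := fun i => nb e (sq e i)

lemma length_sq (e : R) (i : ℕ) : (sq e i).length = i := by
  induction i with
  | zero => rfl
  | succ i ih => simp [sq, ih]

lemma Y_mem (e : R) (i : ℕ) : Y e ∈ cy (sq e i) := by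
  induction i with
  | zero => rw [sq, cy_nil]; exact mem_univ _
  | succ i ih =>
    rw [sq, mem_cy_snoc]
    refine ⟨ih, ?_⟩
    rw [length_sq]
    rfl

lemma not_sub (e : R) (h : ∃ m, ¬ cy [] ⊆ U e m) (i : ℕ) : ¬ cy (sq e i) ⊆ U e (mm e) := by
  classical
  induction i with
  | zero =>
    have h1 : mm e = Nat.find h := by
      unfold mm
      rw [dif_pos h]
    rw [sq, h1]
    exact Nat.find_spec h
  | succ i ih =>
    rw [sq]
    by_cases h1 : cy (sq e i ++ [false]) ⊆ U e (mm e)
    · have h2 : nb e (sq e i) = true := by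
        unfold nb
        rw [if_pos h1]
      rw [h2]
      intro h3
      apply ih
      intro x hx
      cases hb : x (sq e i).length with
      | false => exact h1 ((mem_cy_snoc _ _ _).2 ⟨hx, hb⟩)
      | true => exact h3 ((mem_cy_snoc _ _ _).2 ⟨hx, hb⟩)
    · have h2 : nb e (sq e i) = false := by
        unfold nb
        rw [if_neg h1]
      rw [h2]
      exact h1

lemma exists_cy {W : Set Cantor} (hW : IsOpen W) {x : Cantor} (hx : x ∈ W) :
    ∃ i, ∀ s : List Bool, s.length = i → x ∈ cy s → cy s ⊆ W := by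
  obtain ⟨S, u, hu, hsub⟩ := isOpen_pi_iff.1 hW x hx
  obtain ⟨b, hb⟩ := S.bddAbove
  refine ⟨b + 1, fun s hs hxs z hz => hsub ?_⟩
  intro n hn
  have hn' : n < s.length := by
    have := hb hn
    omega
  rw [hz n hn', ← hxs n hn']
  exact (hu n hn).2

lemma Y_notMem (e : R) (h : ∃ m, ¬ cy [] ⊆ U e m) : Y e ∉ U e (mm e) := by
  intro hY
  obtain ⟨i, hi⟩ := exists_cy (isOpen_U e (mm e)) hY
  exact not_sub e h i (hi _ (length_sq e i) (Y_mem e i))

lemma mb_nb (s : List Bool) (b : Bool) : MeasurableSet {e : R | nb e s = b} := by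
  classical
  have h : {e : R | nb e s = true} = {e : R | cy (s ++ [false]) ⊆ U e (mm e)} := by
    ext e
    simp [nb]
  have h1 : MeasurableSet {e : R | nb e s = true} := by
    rw [h]
    exact mb_UU _
  cases b with
  | true => exact h1
  | false =>
    have h2 : {e : R | nb e s = false} = {e : R | nb e s = true}ᶜ := by
      ext e
      simp
    rw [h2]
    exact h1.compl

lemma mb_sq (i : ℕ) : ∀ t : List Bool, MeasurableSet {e : R | sq e i = t} := by
  induction i with
  | zero =>
    intro t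
    have h : {e : R | sq e 0 = t} = {_e : R | [] = t} := rfl
    rw [h]
    exact MeasurableSet.const _
  | succ i ih =>
    intro t
    have h : {e : R | sq e (i + 1) = t} =
        ⋃ t' : List Bool, ⋃ b : Bool, ({e : R | sq e i = t'} ∩ {e : R | nb e t' = b} ∩
          {_e : R | t' ++ [b] = t}) := by
      ext e
      simp only [mem_ofPred_eq, mem_iUnion, mem_inter_iff]
      constructor
      · intro h1
        exact ⟨sq e i, nb e (sq e i), ⟨rfl, rfl⟩, h1⟩
      · rintro ⟨t', b, ⟨h1, h2⟩, h3⟩
        rw [sq, h1, h2, h3]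
    rw [h]
    exact MeasurableSet.iUnion fun t' => MeasurableSet.iUnion fun b =>
      ((ih t').inter (mb_nb t' b)).inter (MeasurableSet.const _)

lemma mb_Y : Measurable Y := by
  refine measurable_pi_lambda _ fun i => ?_
  refine measurable_to_countable' fun b => ?_
  have h : (fun e => Y e i) ⁻¹' {b} =
      ⋃ t : List Bool, ({e : R | sq e i = t} ∩ {e : R | nb e t = b}) := by
    ext e
    simp only [mem_preimage, mem_singleton_iff, mem_iUnion, mem_inter_iff, mem_ofPred_eq]
    constructor
    · intro h1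
      exact ⟨sq e i, rfl, h1⟩
    · rintro ⟨t, h1, h2⟩
      show nb e (sq e i) = b
      rw [h1, h2]
  rw [h]
  exact MeasurableSet.iUnion fun t => (mb_sq i t).inter (mb_nb t b)

end Pick

/-- A Borel choice of a point which is in only finitely many sets of the sequence. -/
theorem exists_pick : ∃ Y : R → Cantor, Measurable Y ∧
    ∀ e : R, OmegaBar (fun n => (cl (e n) : Set Cantor)) →
      {n | Y e ∈ (cl (e n) : Set Cantor)}.Finite := by
  refine ⟨Pick.Y, Pick.mb_Y, fun e he => ?_⟩
  have hex : ∃ m, ¬ Pick.cy [] ⊆ Pick.U e m := by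
    by_contra hcon
    push Not at hcon
    have h1 : (univ : Set Cantor) ⊆ {x | {n | x ∈ (cl (e n) : Set Cantor)}.Infinite} := by
      intro x _
      refine Set.infinite_of_not_bddAbove ?_
      rintro ⟨b, hb⟩
      have h2 : x ∈ Pick.U e (b + 1) := hcon (b + 1) (by rw [Pick.cy_nil]; exact mem_univ x)
      simp only [Pick.U, mem_iUnion] at h2
      obtain ⟨n, hn, hxn⟩ := h2
      have h3 : n ≤ b := hb hxn
      omega
    have h4 : mu (univ : Set Cantor) ≤ 0 := he.2 ▸ measure_mono h1
    rw [measure_univ] at h4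
    exact absurd h4 (by simp)
  have hY := Pick.Y_notMem e hex
  refine (Set.finite_lt_nat (Pick.mm e)).subset ?_
  intro n hn
  by_contra hcon
  apply hY
  simp only [Pick.U, mem_iUnion]
  exact ⟨n, not_lt.1 hcon, hn⟩

/-- The same for names. -/
theorem pickN {I : Type} {c : Coh I → R} (hc : Measurable c)
    (ho : Frc fun x => OmegaBar fun n => (cl (c x n) : Set Cantor)) :
    ∃ y : Coh I → Cantor, Measurable y ∧ (∀ C, DependsOn c C → DependsOn y C) ∧
      Frc fun x => {n | y x ∈ (cl (c x n) : Set Cantor)}.Finite := by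
  obtain ⟨Y, hY, h⟩ := exists_pick
  refine ⟨fun x => Y (c x), hY.comp hc, fun C hC x z hxz => ?_, ?_⟩
  · show Y (c x) = Y (c z)
    rw [hC hxz]
  · have ho' : ∀ᶠ x in residual (Coh I), OmegaBar fun n => (cl (c x n) : Set Cantor) := ho
    exact ho'.mono fun x hx => h _ hx

end Pool.Agent.Fo65
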