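import Pool.Agent.Fo65.Base

/-!
MP_50671f, forced form: the complete Boolean algebra of regular open sets, and its relation to
residual sets.
-/

namespace Pool.Agent.Fo65

open MeasureTheory Set Cardinal TopologicalSpace Filter Pool.Agent.Nm65

/-- The regular open sets of a topological space. -/
abbrev RO (X : Type) [TopologicalSpace X] : Type := Heyting.Regular (Opens X)

section gen
variable {X : Type} [TopologicalSpace X]

noncomputable instance : CompleteBooleanAlgebra (RO X) :=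
  { (inferInstance : BooleanAlgebra (RO X)) with
    sSup := fun s => Heyting.Regular.toRegular (⨆ a : s, (a.1).val)
    sInf := fun s => Heyting.Regular.toRegular (⨅ a : s, (a.1).val)
    isLUB_sSup := fun s => by
      constructor
      · intro a ha
        have : a.val ≤ ⨆ a : s, (a.1).val := le_iSup (fun a : s => (a.1).val) ⟨a, ha⟩
        exact (le_compl_compl (a := a.val)).trans (compl_le_compl (compl_le_compl this))
      · intro b hb
        exact Heyting.Regular.gi.gc.l_le (iSup_le fun a => hb a.2)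
    isGLB_sInf := fun s => by
      constructor
      · intro a ha
        refine Heyting.Regular.gi.gc.l_le ?_
        exact iInf_le (fun a : s => (a.1).val) ⟨a, ha⟩
      · intro b hb
        have : b.val ≤ ⨅ a : s, (a.1).val := le_iInf fun a => hb a.2
        exact (le_compl_compl (a := b.val)).trans (compl_le_compl (compl_le_compl this)) }

lemma mem_compl_opens {U : Opens X} {x : X} : x ∈ Uᶜ ↔ ∃ V : Opens X, x ∈ V ∧ Disjoint V U := by
  constructor
  · intro h
    exact ⟨Uᶜ, h, disjoint_compl_left⟩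
  · rintro ⟨V, hV, hd⟩
    exact (le_compl_iff_disjoint_right.2 hd) hV

lemma not_mem_of_compl {U : Opens X} {x : X} (h : x ∈ Uᶜ) : x ∉ U := by
  intro hx
  have : x ∈ U ⊓ Uᶜ := ⟨hx, h⟩
  rw [inf_compl_eq_bot] at this
  exact this

lemma frc_or_compl (U : Opens X) : ∀ᶠ x in residual X, x ∈ U ∨ x ∈ Uᶜ := by
  have h : {x | x ∈ U ∨ x ∈ Uᶜ} ∈ residual X := by
    refine residual_of_dense_open ?_ ?_
    · exact (U ⊔ Uᶜ).isOpen
    · rw [dense_iff_inter_open]
      rintro V hV ⟨x, hx⟩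
      by_contra hcon
      rw [Set.not_nonempty_iff_eq_empty] at hcon
      have hd : Disjoint (⟨V, hV⟩ : Opens X) U := by
        rw [disjoint_iff_inf_le]
        intro y hy
        have : y ∈ V ∩ {x | x ∈ U ∨ x ∈ Uᶜ} := ⟨hy.1, Or.inl hy.2⟩
        rw [hcon] at this
        exact this
      have : x ∈ V ∩ {x | x ∈ U ∨ x ∈ Uᶜ} := ⟨hx, Or.inr (mem_compl_opens.2 ⟨⟨V, hV⟩, hx, hd⟩)⟩
      rw [hcon] at this
      exact this
  exact h

end gen

variable {I : Type}

/-- The family x is in the truth value b. -/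
def In (x : Coh I) (b : RO (Coh I)) : Prop := x ∈ b.val

lemma isOpen_In (b : RO (Coh I)) : IsOpen {x | In x b} := b.val.isOpen

lemma frc_compl (a : RO (Coh I)) : Frc fun x => In x aᶜ ↔ ¬ In x a := by
  have h : ∀ᶠ x in residual (Coh I), x ∈ a.val ∨ x ∈ a.valᶜ := frc_or_compl a.val
  show ∀ᶠ x in residual (Coh I), In x aᶜ ↔ ¬ In x a
  filter_upwards [h] with x hx
  constructor
  · intro h1
    exact not_mem_of_compl (U := a.val) h1
  · intro h1
    exact hx.resolve_left h1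

lemma In.le {a b : RO (Coh I)} (h : a ≤ b) {x : Coh I} (hx : In x a) : In x b := h hx

lemma in_top (x : Coh I) : In x ⊤ := trivial

lemma not_in_bot (x : Coh I) : ¬ In x (⊥ : RO (Coh I)) := fun h => h

lemma in_inf {a b : RO (Coh I)} {x : Coh I} : In x (a ⊓ b) ↔ In x a ∧ In x b := Iff.rfl

/-- Two open sets, one regular. -/
lemma le_iff {a b : RO (Coh I)} : a ≤ b ↔ Frc fun x => In x a → In x b := by
  constructor
  · intro h
    exact Filter.Eventually.of_forall fun x hx => hx.le h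
  · intro h
    have hle : a.val ≤ (b.val)ᶜᶜ := by
      rw [le_compl_iff_disjoint_right, disjoint_iff_inf_le]
      intro y hy
      obtain ⟨F, hF⟩ := exists_cyl (a.val ⊓ (b.val)ᶜ).isOpen hy
      obtain ⟨z, hz1, hz2⟩ := Frc.exists h F y
      have hz := hF hz1
      exact absurd (hz2 hz.1) (not_mem_of_compl hz.2)
    have : (b.val)ᶜᶜ = b.val := b.prop
    rw [this] at hle
    exact hle

lemma eq_top_iff' {a : RO (Coh I)} : a = ⊤ ↔ Frc fun x => In x a := by
  rw [eq_top_iff, le_iff]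
  constructor
  · intro h
    exact h.mono fun x hx => hx (in_top x)
  · intro h
    exact h.mono fun x hx _ => hx

lemma in_iInf {ι : Sort*} {f : ι → RO (Coh I)} {x : Coh I} (h : In x (⨅ i, f i)) (i : ι) :
    In x (f i) := h.le (iInf_le f i)

lemma in_iSup {ι : Sort*} {f : ι → RO (Coh I)} {x : Coh I} {i : ι} (h : In x (f i)) :
    In x (⨆ i, f i) := h.le (le_iSup f i)

lemma frc_iSup {ι : Sort*} (f : ι → RO (Coh I)) :
    Frc fun x => In x (⨆ i, f i) ↔ ∃ i, In x (f i) := by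
  have hle : ((⨆ i, f i : RO (Coh I))) ≤ Heyting.Regular.toRegular (⨆ i, (f i).val) := by
    refine iSup_le fun i => ?_
    have : (f i).val ≤ ⨆ i, (f i).val := le_iSup (fun i => (f i).val) i
    exact (le_compl_compl (a := (f i).val)).trans (compl_le_compl (compl_le_compl this))
  have h : ∀ᶠ x in residual (Coh I), x ∈ (⨆ i, (f i).val) ∨ x ∈ (⨆ i, (f i).val)ᶜ :=
    frc_or_compl _
  show ∀ᶠ x in residual (Coh I), In x (⨆ i, f i) ↔ ∃ i, In x (f i)
  filter_upwards [h] with x hx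
  constructor
  · intro h1
    have h2 : x ∈ (⨆ i, (f i).val)ᶜᶜ := hle h1
    have h3 := hx.resolve_right (not_mem_of_compl h2)
    rw [Opens.mem_iSup] at h3
    exact h3
  · rintro ⟨i, hi⟩
    exact in_iSup hi

lemma frc_sup (a b : RO (Coh I)) : Frc fun x => In x (a ⊔ b) ↔ In x a ∨ In x b := by
  have h : ∀ᶠ x in residual (Coh I), In x (⨆ i : Bool, cond i a b) ↔ ∃ i : Bool, In x (cond i a b) :=
    frc_iSup _
  show ∀ᶠ x in residual (Coh I), In x (a ⊔ b) ↔ In x a ∨ In x b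
  filter_upwards [h] with x hx
  rw [sup_eq_iSup, hx]
  simp only [Bool.exists_bool, cond_false, cond_true]
  exact Or.comm

lemma frc_himp (a b : RO (Coh I)) : Frc fun x => In x (a ⇨ b) ↔ (In x a → In x b) := by
  have h1 : ∀ᶠ x in residual (Coh I), In x (b ⊔ aᶜ) ↔ In x b ∨ In x aᶜ := frc_sup _ _
  have h2 : ∀ᶠ x in residual (Coh I), In x aᶜ ↔ ¬ In x a := frc_compl _
  show ∀ᶠ x in residual (Coh I), In x (a ⇨ b) ↔ (In x a → In x b)
  filter_upwards [h1, h2] with x hx1 hx2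
  rw [himp_eq, hx1, hx2]
  tauto

lemma frc_iInf {ι : Sort*} [Countable ι] (f : ι → RO (Coh I)) :
    Frc fun x => In x (⨅ i, f i) ↔ ∀ i, In x (f i) := by
  have h0 : (⨅ i, f i) = (⨆ i, (f i)ᶜ)ᶜ := by
    rw [compl_iSup]; simp only [compl_compl]
  have h1 : ∀ᶠ x in residual (Coh I), In x (⨆ i, (f i)ᶜ)ᶜ ↔ ¬ In x (⨆ i, (f i)ᶜ) := frc_compl _
  have h2 : ∀ᶠ x in residual (Coh I), In x (⨆ i, (f i)ᶜ) ↔ ∃ i, In x (f i)ᶜ := frc_iSup _
  have h3 : ∀ᶠ x in residual (Coh I), ∀ i, In x (f i)ᶜ ↔ ¬ In x (f i) :=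
    eventually_countable_forall.2 fun i => frc_compl _
  show ∀ᶠ x in residual (Coh I), In x (⨅ i, f i) ↔ ∀ i, In x (f i)
  filter_upwards [h1, h2, h3] with x hx1 hx2 hx3
  rw [h0, hx1, hx2]
  push Not
  exact forall_congr' fun i => by rw [hx3 i]; exact not_not

/-- The truth value of a predicate. -/
noncomputable def val (φ : Coh I → Prop) : RO (Coh I) :=
  Heyting.Regular.toRegular ⟨{x | ∃ F, Fc F x φ}, isOpen_Fc φ⟩

lemma frc_val_of {φ : Coh I → Prop} (h1 : Frc fun x => φ x → ∃ F, Fc F x φ)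
    (h2 : Frc fun x => ¬ φ x → ∃ F, Fc F x fun y => ¬ φ y) :
    Frc fun x => In x (val φ) ↔ φ x := by
  classical
  set U : Opens (Coh I) := ⟨{x | ∃ F, Fc F x φ}, isOpen_Fc φ⟩ with hU
  have h3 : ∀ᶠ x in residual (Coh I), x ∈ U ∨ x ∈ Uᶜ := frc_or_compl _
  have h1' : ∀ᶠ x in residual (Coh I), φ x → ∃ F, Fc F x φ := h1
  have h2' : ∀ᶠ x in residual (Coh I), ¬ φ x → ∃ F, Fc F x fun y => ¬ φ y := h2
  show ∀ᶠ x in residual (Coh I), In x (val φ) ↔ φ x
  filter_upwards [h1', h2', h3] with x hx1 hx2 hx3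
  constructor
  · intro h4
    have h5 : x ∈ Uᶜᶜ := h4
    have h6 : x ∈ U := hx3.resolve_right (not_mem_of_compl h5)
    by_contra hcon
    obtain ⟨F, hF⟩ : ∃ F, Fc F x φ := h6
    obtain ⟨G, hG⟩ := hx2 hcon
    have a1 : Fc (F ∪ G) x φ := hF.mono Finset.subset_union_left (mem_cyl_self _ _)
    have a2 : Fc (F ∪ G) x fun y => ¬ φ y := hG.mono Finset.subset_union_right (mem_cyl_self _ _)
    have a3 : ∀ᶠ y in residual (Coh I), y ∈ cyl (F ∪ G) x → φ y ∧ ¬ φ y := a1.and a2
    obtain ⟨y, hy1, hy2⟩ := residual_meets a3 (F ∪ G) x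
    exact (hy2 hy1).2 (hy2 hy1).1
  · intro h4
    have h5 : x ∈ U := hx1 h4
    exact le_compl_compl (a := U) h5

theorem frc_val {φ : Coh I → Prop} (hm : MeasurableSet {x | φ x}) :
    Frc fun x => In x (val φ) ↔ φ x := frc_val_of (truth' hm) (truth' hm.compl)

theorem frc_val_open {φ : Coh I → Prop} (hm : IsOpen {x | φ x}) :
    Frc fun x => In x (val φ) ↔ φ x := by
  refine frc_val_of ?_ ?_
  · refine Filter.Eventually.of_forall fun x hx => ?_
    obtain ⟨F, hF⟩ := exists_cyl hm hx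
    exact ⟨F, Filter.Eventually.of_forall fun y hy => hF hy⟩
  · have h3 : ∀ᶠ x in residual (Coh I), x ∈ (⟨_, hm⟩ : Opens (Coh I)) ∨
      x ∈ (⟨_, hm⟩ : Opens (Coh I))ᶜ := frc_or_compl _
    show ∀ᶠ x in residual (Coh I), ¬ φ x → ∃ F, Fc F x fun y => ¬ φ y
    filter_upwards [h3] with x hx hn
    have h4 := hx.resolve_left hn
    obtain ⟨F, hF⟩ := exists_cyl (⟨_, hm⟩ : Opens (Coh I))ᶜ.isOpen h4
    exact ⟨F, Filter.Eventually.of_forall fun y hy => not_mem_of_compl (hF hy)⟩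

instance : Nontrivial (RO (Coh I)) :=
  ⟨⊤, ⊥, fun h => not_in_bot (fun _ _ => 0 : Coh I) (h ▸ in_top _)⟩

end Pool.Agent.Fo65
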